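import Mathlib
import Pool.Agent.Lib.AbcE.CoreInf

open Finset

namespace Pool.Agent.Lib.Pabc13

/-- The choice of the parameters of the transcendental core at the infinite place. -/
theorem size_inf (g D d N : ℕ) (δ C h L lam rho : ℝ) (hδ : 0 < δ) (hδ1 : δ ≤ 1) (hC : 1 ≤ C)
    (hL : 10000 * C / δ ≤ L) (hg : 10000 * C / δ ≤ g) (hgL : g * L ≤ h)
    (hlam : lam ≤ C * h / g) (hrho : rho ≤ δ * L * g / (20000 * C))
    (hN : N = ⌊δ * h / (2 * L)⌋₊) (hD : D = ⌊δ * g / (100 * C)⌋₊) (hd : d = 4 * N / (D + 1)) :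
    2 * Real.log (((D + 1) * (d + 1) : ℕ) : ℝ) + Real.log ((D + d * g + 1 : ℕ) : ℝ) +
        ((D + d * g : ℕ) : ℝ) * Real.log 8 +
        ((5 * D : ℕ) : ℝ) * lam + ((5 * d : ℕ) : ℝ) * rho ≤ 15 / 100 * (δ * h) ∧
      (d + 1) * D < 5 * (N - d) ∧ 2 * (2 * N) ≤ (D + 1) * (d + 1) ∧ D < g ∧
      49 / 100 * (δ * h) ≤ N * L ∧ (d : ℝ) ≤ δ * h ∧ 10 ^ 8 ≤ δ * h := by
  have hC0 : 0 < C := by linarith
  have hL0 : 0 < L := lt_of_lt_of_le (by positivity) hL
  have hg0 : (0 : ℝ) < g := lt_of_lt_of_le (by positivity) hg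
  have hL' : 10000 * C ≤ δ * L := by
    rw [div_le_iff₀ hδ] at hL
    linarith
  have hg' : 10000 * C ≤ δ * g := by
    rw [div_le_iff₀ hδ] at hg
    linarith
  have hg10 : (10000 : ℝ) ≤ g := by
    have : δ * g ≤ 1 * g := mul_le_mul_of_nonneg_right hδ1 hg0.le
    linarith
  have hL10 : (10000 : ℝ) ≤ L := by
    have : δ * L ≤ 1 * L := mul_le_mul_of_nonneg_right hδ1 hL0.le
    linarith
  have hh0 : 0 < h := lt_of_lt_of_le (by positivity) hgL
  set y : ℝ := δ * h with hy
  have hy0 : 0 < y := by positivity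
  have hy8 : 10 ^ 8 ≤ y := by
    have h1 : δ * (g * L) ≤ δ * h := mul_le_mul_of_nonneg_left hgL hδ.le
    have h2 : 10000 * C * 10000 ≤ δ * g * L := mul_le_mul hg' hL10 (by norm_num) (by positivity)
    nlinarith
  -- z = δ h / L
  set z : ℝ := y / L with hz
  have hzL : z * L = y := by
    rw [hz]
    field_simp
  have hz0 : 0 < z := by positivity
  have hzg : δ * g ≤ z := by
    rw [hz, le_div_iff₀ hL0]
    calc δ * g * L = δ * (g * L) := by ring
      _ ≤ δ * h := mul_le_mul_of_nonneg_left hgL hδ.le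
  have hz4 : (10000 : ℝ) ≤ z := by linarith
  have hN1 : (N : ℝ) ≤ z / 2 := by
    have h1 : (N : ℝ) ≤ δ * h / (2 * L) := by
      rw [hN]
      exact Nat.floor_le (by positivity)
    have h2 : δ * h / (2 * L) = z / 2 := by
      rw [hz, hy]
      field_simp
    linarith
  have hN2 : z / 2 < N + 1 := by
    have h1 : δ * h / (2 * L) < N + 1 := by
      rw [hN]
      exact Nat.lt_floor_add_one _
    have h2 : δ * h / (2 * L) = z / 2 := by
      rw [hz, hy]
      field_simp
    linarith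
  have hD1 : 100 * C * D ≤ δ * g := by
    have h1 : (D : ℝ) ≤ δ * g / (100 * C) := by
      rw [hD]
      exact Nat.floor_le (by positivity)
    rw [le_div_iff₀ (by positivity)] at h1
    linarith
  have hD2 : δ * g < 100 * C * (D + 1) := by
    have h1 : δ * g / (100 * C) < D + 1 := by
      rw [hD]
      exact Nat.lt_floor_add_one _
    rw [div_lt_iff₀ (by positivity)] at h1
    linarith
  have hd1 : d * (D + 1) ≤ 4 * N := by
    rw [hd]
    exact Nat.div_mul_le_self _ _
  have hd2 : 4 * N < (d + 1) * (D + 1) := by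
    rw [hd]
    have := Nat.lt_div_mul_add (a := 4 * N) (b := D + 1) (by omega)
    linarith [this]
  have hd1' : (d : ℝ) * (D + 1) ≤ 4 * N := by exact_mod_cast hd1
  have hD0 : (0 : ℝ) ≤ D := Nat.cast_nonneg D
  have hd0 : (0 : ℝ) ≤ d := Nat.cast_nonneg d
  have hN0 : (0 : ℝ) ≤ N := Nat.cast_nonneg N
  -- d * (δ g) ≤ 200 C z
  have hdg : (d : ℝ) * (δ * g) ≤ 200 * C * z := by
    have h1 : (d : ℝ) * (δ * g) ≤ d * (100 * C * (D + 1)) := mul_le_mul_of_nonneg_left hD2.le hd0
    have h2 : (d : ℝ) * (100 * C * (D + 1)) = 100 * C * (d * (D + 1)) := by ring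
    have h3 : 100 * C * ((d : ℝ) * (D + 1)) ≤ 100 * C * (4 * N) :=
      mul_le_mul_of_nonneg_left hd1' (by positivity)
    have h4 : 100 * C * (4 * (N : ℝ)) ≤ 100 * C * (4 * (z / 2)) := by
      apply mul_le_mul_of_nonneg_left _ (by positivity)
      linarith
    linarith
  -- d ≤ z / 50
  have hdz : 50 * (d : ℝ) ≤ z := by
    have h1 : (d : ℝ) * (10000 * C) ≤ d * (δ * g) := mul_le_mul_of_nonneg_left hg' hd0
    have h2 : C * (10000 * d) ≤ C * (200 * z) := by linarith
    have h3 := le_of_mul_le_mul_left h2 hC0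
    linarith
  -- d g ≤ y / 50
  have hdgy : 50 * ((d : ℝ) * g) ≤ y := by
    have h1 : (d : ℝ) * (δ * g) * L ≤ 200 * C * z * L := mul_le_mul_of_nonneg_right hdg hL0.le
    have h2 : 200 * C * z * L = 200 * C * y := by
      rw [← hzL]
      ring
    have h3 : (d : ℝ) * g * (10000 * C) ≤ d * g * (δ * L) :=
      mul_le_mul_of_nonneg_left hL' (by positivity)
    have h4 : (d : ℝ) * g * (δ * L) = d * (δ * g) * L := by ring
    have h5 : C * (10000 * (d * g)) ≤ C * (200 * y) := by linarith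
    have h6 := le_of_mul_le_mul_left h5 hC0
    linarith
  have hzy : 10000 * z ≤ y := by
    rw [← hzL]
    nlinarith
  have hDz : 100 * (D : ℝ) ≤ z := by
    have h1 : 100 * (D : ℝ) ≤ 100 * C * D := by nlinarith
    linarith
  refine ⟨?_, ?_, ?_, ?_, ?_, ?_, hy8⟩
  · have hlog8 : Real.log 8 ≤ 2.08 := by
      have h1 : Real.log 8 = 3 * Real.log 2 := by
        rw [show (8 : ℝ) = 2 ^ 3 by norm_num, Real.log_pow]
        norm_num
      have := Real.log_two_lt_d9
      linarith
    have hlog80 : 0 ≤ Real.log 8 := Real.log_nonneg (by norm_num)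
    have s1 : ((D + d * g : ℕ) : ℝ) * Real.log 8 ≤ 44 / 1000 * y := by
      push_cast
      have h1 : (D : ℝ) + d * g ≤ 21 / 1000 * y := by linarith
      have h2 : ((D : ℝ) + d * g) * Real.log 8 ≤ (21 / 1000 * y) * 2.08 :=
        mul_le_mul h1 hlog8 hlog80 (by positivity)
      linarith
    have s2 : ((5 * D : ℕ) : ℝ) * lam ≤ 5 / 100 * y := by
      push_cast
      have h1 : 5 * (D : ℝ) * lam ≤ 5 * D * (C * h / g) :=
        mul_le_mul_of_nonneg_left hlam (by positivity)
      have h2 : 5 * (D : ℝ) * (C * h / g) = 5 * (C * D) * (h / g) := by ring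
      have h3 : 5 * (C * (D : ℝ)) * (h / g) ≤ 5 * (δ * g / 100) * (h / g) := by
        apply mul_le_mul_of_nonneg_right _ (by positivity)
        linarith
      have h4 : 5 * (δ * (g : ℝ) / 100) * (h / g) = 5 / 100 * y := by
        rw [hy]
        field_simp
      linarith
    have s3 : ((5 * d : ℕ) : ℝ) * rho ≤ 5 / 100 * y := by
      push_cast
      have h1 : 5 * (d : ℝ) * rho ≤ 5 * d * (δ * L * g / (20000 * C)) :=
        mul_le_mul_of_nonneg_left hrho (by positivity)
      have h2 : 5 * (d : ℝ) * (δ * L * g / (20000 * C)) =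
          5 * L / (20000 * C) * (d * (δ * g)) := by ring
      have h3 : 5 * L / (20000 * C) * ((d : ℝ) * (δ * g)) ≤ 5 * L / (20000 * C) * (200 * C * z) :=
        mul_le_mul_of_nonneg_left hdg (by positivity)
      have h4 : 5 * L / (20000 * C) * (200 * C * z) = 5 / 100 * (z * L) := by
        field_simp
        ring
      rw [hzL] at h4
      linarith
    have hlogy : Real.log y ≤ y / 1000000 := by
      obtain ⟨W, hW⟩ : ∃ W : ℝ, W = 100000000 := ⟨_, rfl⟩
      have hW0 : 0 < W := by rw [hW]; norm_num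
      have h3 : Real.log y = Real.log (y / W) + Real.log W := by
        rw [← Real.log_mul (by positivity) (by positivity)]
        congr 1
        field_simp
      have h4 := Real.log_le_sub_one_of_pos (show 0 < y / W by positivity)
      have h5 : Real.log W ≤ 72 := by
        have h10 : W = 10 ^ 8 := by rw [hW]; norm_num
        rw [h10, Real.log_pow]
        have := Real.log_le_sub_one_of_pos (show (0 : ℝ) < 10 by norm_num)
        push_cast
        linarith
      have h7 : (100000000 : ℝ) ≤ y := by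
        have : (10 : ℝ) ^ 8 = 100000000 := by norm_num
        linarith
      have h8 : y / W = y / 100000000 := by rw [hW]
      linarith
    have s4 : 2 * Real.log (((D + 1) * (d + 1) : ℕ) : ℝ) + Real.log ((D + d * g + 1 : ℕ) : ℝ) ≤
        1 / 1000 * y := by
      have h1 : (((D + 1) * (d + 1) : ℕ) : ℝ) ≤ y := by
        push_cast
        have : ((D : ℝ) + 1) * (d + 1) = d * (D + 1) + D + 1 := by ring
        rw [this]
        linarith
      have h2 : ((D + d * g + 1 : ℕ) : ℝ) ≤ y := by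
        push_cast
        linarith
      have h3 := Real.log_le_log (by positivity) h1
      have h4 := Real.log_le_log (by positivity) h2
      linarith
    linarith
  · have hkey : (D : ℝ) + 5 * d < N := by linarith
    have hkey' : D + 5 * d < N := by exact_mod_cast hkey
    have h1 : (d + 1) * D ≤ 4 * N + D := by nlinarith
    have h2 : 4 * N + D < 5 * (N - d) := by omega
    omega
  · have : (D + 1) * (d + 1) = (d + 1) * (D + 1) := by ring
    omega
  · have h1 : (D : ℝ) < g := by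
      have : δ * g ≤ 1 * g := mul_le_mul_of_nonneg_right hδ1 hg0.le
      nlinarith
    exact_mod_cast h1
  · have h1 : (49 / 100 * z) * L ≤ N * L := by
      apply mul_le_mul_of_nonneg_right _ hL0.le
      linarith
    have h2 : (49 / 100 * z) * L = 49 / 100 * y := by
      rw [← hzL]
      ring
    linarith
  · linarith

/-- Two rationals cannot be this close: the archimedean gap principle. -/
theorem pairInf (g B1 B2 A1 A2 : ℕ) (δ C h L : ℝ) (hδ : 0 < δ) (hδ1 : δ ≤ 1) (hC : 1 ≤ C)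
    (hL : 10000 * C / δ ≤ L) (hg : 10000 * C / δ ≤ g) (hgL : g * L ≤ h)
    (hB1 : 0 < B1) (hB2 : 0 < B2) (hA1 : 0 < A1) (hA2 : 0 < A2) (hne : B1 ≠ B2)
    (hE0 : |(B2 : ℝ) - B1| ≤ Real.exp (-L) / 20 * B1)
    (hE1 : |(A1 : ℝ) * B1 ^ g - A2 * B2 ^ g| ≤ 8 * Real.exp (-(δ * h)) * (A2 * B2 ^ g))
    (hB : Real.log ((max B1 B2 : ℕ) : ℝ) ≤ C * h / g)
    (hA : Real.log ((max A1 A2 : ℕ) : ℝ) ≤ δ * L * g / (20000 * C)) : False := by
  obtain ⟨N, hN⟩ : ∃ N : ℕ, N = ⌊δ * h / (2 * L)⌋₊ := ⟨_, rfl⟩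
  obtain ⟨D, hD⟩ : ∃ D : ℕ, D = ⌊δ * g / (100 * C)⌋₊ := ⟨_, rfl⟩
  obtain ⟨d, hd⟩ : ∃ d : ℕ, d = 4 * N / (D + 1) := ⟨_, rfl⟩
  obtain ⟨hsize, hzero, hSieg, hDg, hNL, hdy, hy8⟩ := size_inf g D d N δ C h L _ _ hδ hδ1 hC hL hg
    hgL hB hA hN hD hd
  set y : ℝ := δ * h with hy
  have hy0 : 0 < y := by linarith
  have hC0 : 0 < C := by linarith
  have hL0 : 0 < L := lt_of_lt_of_le (by positivity) hL
  have hexpL : Real.exp (-L) ≤ 1 := by
    rw [Real.exp_le_one_iff]
    linarith
  have hmB : (0 : ℝ) < ((max B1 B2 : ℕ) : ℝ) := by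
    exact_mod_cast lt_of_lt_of_le hB1 (le_max_left _ _)
  have hmA : (0 : ℝ) < ((max A1 A2 : ℕ) : ℝ) := by
    exact_mod_cast lt_of_lt_of_le hA1 (le_max_left _ _)
  -- exponential facts
  have hye : 80 * y * Real.exp (-y) ≤ Real.exp (-(9 / 10 * y)) := by
    have h1 : 80 * y ≤ Real.exp (1 / 10 * y) := by
      have h2 := Real.quadratic_le_exp_of_nonneg (show 0 ≤ 1 / 10 * y by positivity)
      nlinarith
    calc 80 * y * Real.exp (-y) ≤ Real.exp (1 / 10 * y) * Real.exp (-y) :=
          mul_le_mul_of_nonneg_right h1 (Real.exp_pos _).le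
      _ = Real.exp (-(9 / 10 * y)) := by
          rw [← Real.exp_add]
          congr 1
          ring
  have hE1' : 2 * ((5 * d : ℕ) : ℝ) * (8 * Real.exp (-y)) ≤ Real.exp (-(9 / 10 * y)) := by
    refine le_trans ?_ hye
    push_cast
    have h1 : 80 * ((d : ℝ) * Real.exp (-y)) ≤ 80 * (y * Real.exp (-y)) := by
      apply mul_le_mul_of_nonneg_left _ (by norm_num)
      exact mul_le_mul_of_nonneg_right hdy (Real.exp_pos _).le
    linarith
  have hsmall : Real.exp (-(9 / 10 * y)) ≤ 1 := by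
    rw [Real.exp_le_one_iff]
    linarith
  refine Pool.Agent.AbcE.coreInf g D d N 5 B1 B2 A1 A2 (Real.exp (-L) / 20)
    (8 * Real.exp (-y)) hB1 hB2 hA1 hA2 hDg hSieg hne hE0 ?_ hE1 ?_ ?_ hzero
  · push_cast
    linarith
  · linarith
  · -- the size
    have hZpos : (0 : ℝ) < ((((D + 1) * (d + 1)) ^ 2 * (D + d * g + 1) * 8 ^ (D + d * g) *
        (max B1 B2) ^ (5 * D) * (max A1 A2) ^ (5 * d) : ℕ) : ℝ) := by
      have h1 : 0 < max B1 B2 := lt_of_lt_of_le hB1 (le_max_left _ _)
      have h2 : 0 < max A1 A2 := lt_of_lt_of_le hA1 (le_max_left _ _)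
      exact_mod_cast (by positivity : 0 < ((D + 1) * (d + 1)) ^ 2 * (D + d * g + 1) *
        8 ^ (D + d * g) * (max B1 B2) ^ (5 * D) * (max A1 A2) ^ (5 * d))
    have hZlog : Real.log ((((D + 1) * (d + 1)) ^ 2 * (D + d * g + 1) * 8 ^ (D + d * g) *
        (max B1 B2) ^ (5 * D) * (max A1 A2) ^ (5 * d) : ℕ) : ℝ) ≤ 15 / 100 * y := by
      rw [Nat.cast_mul, Nat.cast_mul, Nat.cast_mul, Nat.cast_mul, Nat.cast_pow, Nat.cast_pow,
        Nat.cast_pow, Nat.cast_pow, Real.log_mul (by positivity) (by positivity),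
        Real.log_mul (by positivity) (by positivity), Real.log_mul (by positivity) (by positivity),
        Real.log_mul (by positivity) (by positivity),
        Real.log_pow, Real.log_pow, Real.log_pow, Real.log_pow]
      push_cast at hsize ⊢
      linarith
    have hZ := (Real.log_le_iff_le_exp hZpos).1 hZlog
    have hpow : (4 * ((5 : ℕ) : ℝ) * (Real.exp (-L) / 20)) ^ N ≤ Real.exp (-(49 / 100 * y)) := by
      have h1 : 4 * ((5 : ℕ) : ℝ) * (Real.exp (-L) / 20) = Real.exp (-L) := by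
        push_cast
        ring
      rw [h1, ← Real.exp_nat_mul]
      apply Real.exp_le_exp.2
      linarith
    have hfin : Real.exp (15 / 100 * y) * (Real.exp (-(49 / 100 * y)) +
        Real.exp (-(9 / 10 * y))) < 1 := by
      rw [mul_add, ← Real.exp_add, ← Real.exp_add]
      have h1 : Real.exp (15 / 100 * y + -(49 / 100 * y)) ≤ Real.exp (-1) :=
        Real.exp_le_exp.2 (by linarith)
      have h2 : Real.exp (15 / 100 * y + -(9 / 10 * y)) ≤ Real.exp (-1) :=
        Real.exp_le_exp.2 (by linarith)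
      have h3 : Real.exp (-1) < 1 / 2 := by
        rw [Real.exp_neg, inv_lt_comm₀ (Real.exp_pos _) (by norm_num)]
        have := Real.exp_one_gt_d9
        linarith
      linarith
    refine lt_of_le_of_lt ?_ hfin
    apply mul_le_mul hZ (add_le_add hpow hE1') (by positivity) (Real.exp_pos _).le

end Pool.Agent.Lib.Pabc13
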