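import Mathlib
import Pool.Agent.Lib.Pabc13.InfPair

open Finset

namespace Pool.Agent.Lib.Pabc13

theorem abs_log_div_le (a b : ℕ) (ha : 0 < a) (hb : 0 < b) (l : ℝ)
    (h : Real.log ((max a b : ℕ) : ℝ) ≤ l) : |Real.log ((a : ℝ) / b)| ≤ l := by
  have ha' : (1 : ℝ) ≤ a := by exact_mod_cast ha
  have hb' : (1 : ℝ) ≤ b := by exact_mod_cast hb
  rw [Real.log_div (by positivity) (by positivity)]
  have h1 := Real.log_nonneg ha'
  have h2 := Real.log_nonneg hb'
  have h3 : Real.log (a : ℝ) ≤ Real.log ((max a b : ℕ) : ℝ) := by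
    apply Real.log_le_log (by positivity)
    exact_mod_cast le_max_left a b
  have h4 : Real.log (b : ℝ) ≤ Real.log ((max a b : ℕ) : ℝ) := by
    apply Real.log_le_log (by positivity)
    exact_mod_cast le_max_right a b
  rw [abs_le]
  constructor <;> linarith

theorem log_max_mul_le (a b a' b' : ℕ) (ha : 0 < a) (_hb : 0 < b) (ha' : 0 < a') (hb' : 0 < b')
    (l : ℝ) (h : Real.log ((max a b : ℕ) : ℝ) ≤ l) (h' : Real.log ((max a' b' : ℕ) : ℝ) ≤ l) :
    Real.log ((max (a * b') (b * a') : ℕ) : ℝ) ≤ 2 * l := by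
  have e1 : (0 : ℝ) < ((max a b : ℕ) : ℝ) := by exact_mod_cast lt_of_lt_of_le ha (le_max_left _ _)
  have e2 : (0 : ℝ) < ((max a' b' : ℕ) : ℝ) := by
    exact_mod_cast lt_of_lt_of_le ha' (le_max_left _ _)
  have h1 : max (a * b') (b * a') ≤ max a b * max a' b' := by
    apply max_le
    · exact Nat.mul_le_mul (le_max_left _ _) (le_max_right _ _)
    · exact Nat.mul_le_mul (le_max_right _ _) (le_max_left _ _)
  have h2 : (0 : ℝ) < ((max (a * b') (b * a') : ℕ) : ℝ) := by
    exact_mod_cast lt_of_lt_of_le (Nat.mul_pos ha hb') (le_max_left _ _)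
  have h3 : Real.log ((max (a * b') (b * a') : ℕ) : ℝ) ≤
      Real.log (((max a b * max a' b' : ℕ)) : ℝ) := by
    apply Real.log_le_log h2
    exact_mod_cast h1
  rw [Nat.cast_mul, Real.log_mul e1.ne' e2.ne'] at h3
  linarith

/-- **Archimedean class lemma.** Rationals very close to `1`, each a small rational times a
`g`-th power (with common `g` and a common real factor). -/
theorem classInf {ι : Type*} (T : Finset ι) (g : ℕ) (δ C h L κ : ℝ) (x : ι → ℝ)
    (a1 a2 b1 b2 : ι → ℕ) (hδ : 0 < δ) (hδ1 : δ ≤ 1) (hC : 1 ≤ C)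
    (hL : 10000 * C / δ ≤ L) (hg : 10000 * C / δ ≤ g) (hgL : g * L ≤ h) (hκ : 0 < κ)
    (ha1 : ∀ t ∈ T, 0 < a1 t) (ha2 : ∀ t ∈ T, 0 < a2 t)
    (hb1 : ∀ t ∈ T, 0 < b1 t) (hb2 : ∀ t ∈ T, 0 < b2 t)
    (hx : ∀ t ∈ T, x t = κ * ((a1 t : ℝ) / a2 t) * ((b1 t : ℝ) / b2 t) ^ g)
    (hx1 : ∀ t ∈ T, |Real.log (x t)| ≤ 2 * Real.exp (-(δ * h)))
    (hinj : Set.InjOn x T)
    (hA : ∀ t ∈ T, Real.log ((max (a1 t) (a2 t) : ℕ) : ℝ) ≤ δ * L * g / (40000 * C))
    (hB : ∀ t ∈ T, Real.log ((max (b1 t) (b2 t) : ℕ) : ℝ) ≤ C * h / (2 * g)) :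
    (T.card : ℝ) ≤ 80 * L * Real.exp L + 2 := by
  classical
  have hC0 : 0 < C := by linarith
  have hL0 : 0 < L := lt_of_lt_of_le (by positivity) hL
  have hg0 : (0 : ℝ) < g := lt_of_lt_of_le (by positivity) hg
  have hh0 : 0 < h := lt_of_lt_of_le (by positivity) hgL
  set θ : ℝ := Real.exp (-L) / 40 with hθ
  have hθ0 : 0 < θ := by positivity
  have hexpL : Real.exp (-L) ≤ 1 := by
    rw [Real.exp_le_one_iff]
    linarith
  set lam : ℝ := C * h / (2 * g) with hlam
  -- y = δ h is large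
  have hg' : 10000 * C ≤ δ * g := by
    rw [div_le_iff₀ hδ] at hg
    linarith
  have hL10 : (10000 : ℝ) ≤ L := by
    have : (10000 : ℝ) ≤ 10000 * C / δ := by
      rw [le_div_iff₀ hδ]
      nlinarith
    linarith
  have hy8 : 10000 ≤ δ * h := by
    have h1 : δ * (g * L) ≤ δ * h := mul_le_mul_of_nonneg_left hgL hδ.le
    have h2 : 10000 * C * 1 ≤ δ * g * L :=
      mul_le_mul hg' (by linarith) (by norm_num) (by positivity)
    nlinarith
  have hey : 8 * Real.exp (-(δ * h)) ≤ Real.exp (-(1 / 2 * (δ * h))) := by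
    have h1 : (8 : ℝ) ≤ Real.exp (1 / 2 * (δ * h)) := by
      have := Real.add_one_le_exp (1 / 2 * (δ * h))
      linarith
    calc 8 * Real.exp (-(δ * h)) ≤ Real.exp (1 / 2 * (δ * h)) * Real.exp (-(δ * h)) :=
          mul_le_mul_of_nonneg_right h1 (Real.exp_pos _).le
      _ = Real.exp (-(1 / 2 * (δ * h))) := by
          rw [← Real.exp_add]
          congr 1
          ring
  set f : ι → ℤ := fun t => ⌊(Real.log ((b1 t : ℝ) / b2 t) + Real.log κ / g) / θ⌋ with hf
  have hinjf : Set.InjOn f T := by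
    intro t ht t' ht' hff
    by_contra hne
    have ht0 : t ∈ T := ht
    have ht0' : t' ∈ T := ht'
    have pa1 : (0 : ℝ) < a1 t := by exact_mod_cast ha1 t ht0
    have pa2 : (0 : ℝ) < a2 t := by exact_mod_cast ha2 t ht0
    have pb1 : (0 : ℝ) < b1 t := by exact_mod_cast hb1 t ht0
    have pb2 : (0 : ℝ) < b2 t := by exact_mod_cast hb2 t ht0
    have qa1 : (0 : ℝ) < a1 t' := by exact_mod_cast ha1 t' ht0'
    have qa2 : (0 : ℝ) < a2 t' := by exact_mod_cast ha2 t' ht0'
    have qb1 : (0 : ℝ) < b1 t' := by exact_mod_cast hb1 t' ht0'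
    have qb2 : (0 : ℝ) < b2 t' := by exact_mod_cast hb2 t' ht0'
    have hxne : x t ≠ x t' := fun h => hne (hinj ht ht' h)
    have hxt0 : 0 < x t := by
      rw [hx t ht0]
      positivity
    have hxt0' : 0 < x t' := by
      rw [hx t' ht0']
      positivity
    set βt := (b1 t : ℝ) / b2 t with hβt
    set βt' := (b1 t' : ℝ) / b2 t' with hβt'
    have hβ0 : 0 < βt := by positivity
    have hβ0' : 0 < βt' := by positivity
    have hclose : |Real.log βt' - Real.log βt| ≤ θ := by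
      have h1 : ⌊(Real.log βt + Real.log κ / g) / θ⌋ = ⌊(Real.log βt' + Real.log κ / g) / θ⌋ := hff
      have h2 := Int.abs_sub_lt_one_of_floor_eq_floor h1
      rw [← sub_div, abs_div, abs_of_pos hθ0, div_lt_one hθ0] at h2
      rw [abs_sub_comm]
      have h3 : Real.log βt + Real.log κ / g - (Real.log βt' + Real.log κ / g) =
          Real.log βt - Real.log βt' := by ring
      rw [h3] at h2
      exact h2.le
    have hθ1 : θ ≤ 1 := by
      rw [hθ]
      linarith
    -- the integers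
    have hE0 : |((b2 t * b1 t' : ℕ) : ℝ) - ((b1 t * b2 t' : ℕ) : ℝ)| ≤
        Real.exp (-L) / 20 * ((b1 t * b2 t' : ℕ) : ℝ) := by
      have e1 : ((b2 t * b1 t' : ℕ) : ℝ) - ((b1 t * b2 t' : ℕ) : ℝ) =
          ((b1 t * b2 t' : ℕ) : ℝ) * (Real.exp (Real.log βt' - Real.log βt) - 1) := by
        rw [Real.exp_sub, Real.exp_log hβ0, Real.exp_log hβ0', hβt, hβt']
        push_cast
        field_simp
      rw [e1, abs_mul, abs_of_nonneg (by positivity), mul_comm]
      apply mul_le_mul_of_nonneg_right _ (by positivity)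
      have h3 := Real.abs_exp_sub_one_le (hclose.trans hθ1)
      rw [hθ] at hclose
      linarith
    have hlogx : |Real.log (x t) - Real.log (x t')| ≤ 4 * Real.exp (-(δ * h)) := by
      have h1 := hx1 t ht0
      have h2 := hx1 t' ht0'
      have h3 := abs_sub (Real.log (x t)) (Real.log (x t'))
      linarith
    have hquot : ((a1 t * a2 t' : ℕ) : ℝ) * ((b1 t * b2 t' : ℕ) : ℝ) ^ g =
        Real.exp (Real.log (x t) - Real.log (x t')) *
          (((a2 t * a1 t' : ℕ) : ℝ) * ((b2 t * b1 t' : ℕ) : ℝ) ^ g) := by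
      rw [Real.exp_sub, Real.exp_log hxt0, Real.exp_log hxt0', hx t ht0, hx t' ht0']
      push_cast
      rw [div_pow, div_pow, mul_pow, mul_pow]
      field_simp
    have hsmall1 : 4 * Real.exp (-(δ * h)) ≤ 1 := by
      have h1 : Real.exp (-(1 / 2 * (δ * h))) ≤ 1 := by
        rw [Real.exp_le_one_iff]
        linarith
      have := Real.exp_pos (-(δ * h))
      linarith
    have hE1 : |((a1 t * a2 t' : ℕ) : ℝ) * ((b1 t * b2 t' : ℕ) : ℝ) ^ g -
        ((a2 t * a1 t' : ℕ) : ℝ) * ((b2 t * b1 t' : ℕ) : ℝ) ^ g| ≤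
        8 * Real.exp (-(δ * h)) * (((a2 t * a1 t' : ℕ) : ℝ) * ((b2 t * b1 t' : ℕ) : ℝ) ^ g) := by
      rw [hquot]
      have e1 : Real.exp (Real.log (x t) - Real.log (x t')) *
          (((a2 t * a1 t' : ℕ) : ℝ) * ((b2 t * b1 t' : ℕ) : ℝ) ^ g) -
          ((a2 t * a1 t' : ℕ) : ℝ) * ((b2 t * b1 t' : ℕ) : ℝ) ^ g =
          (Real.exp (Real.log (x t) - Real.log (x t')) - 1) *
          (((a2 t * a1 t' : ℕ) : ℝ) * ((b2 t * b1 t' : ℕ) : ℝ) ^ g) := by ring
      rw [e1, abs_mul, abs_of_nonneg (by positivity : (0 : ℝ) ≤ ((a2 t * a1 t' : ℕ) : ℝ) *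
        ((b2 t * b1 t' : ℕ) : ℝ) ^ g)]
      apply mul_le_mul_of_nonneg_right _ (by positivity)
      have h3 := Real.abs_exp_sub_one_le (hlogx.trans hsmall1)
      linarith
    have hA2 := log_max_mul_le (a1 t) (a2 t) (a1 t') (a2 t') (ha1 t ht0) (ha2 t ht0)
      (ha1 t' ht0') (ha2 t' ht0') _ (hA t ht0) (hA t' ht0')
    have hB2 := log_max_mul_le (b1 t) (b2 t) (b1 t') (b2 t') (hb1 t ht0) (hb2 t ht0)
      (hb1 t' ht0') (hb2 t' ht0') _ (hB t ht0) (hB t' ht0')
    have hAe : 2 * (δ * L * g / (40000 * C)) = δ * L * g / (20000 * C) := by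
      field_simp
      ring
    have hBe : 2 * (C * h / (2 * g)) = C * h / g := by
      field_simp
    rw [hAe] at hA2
    rw [hlam, hBe] at hB2
    -- B1 ≠ B2
    have hBne : b1 t * b2 t' ≠ b2 t * b1 t' := by
      intro hBeq
      have hBpos : (0 : ℝ) < ((b2 t * b1 t' : ℕ) : ℝ) ^ g := by
        push_cast
        positivity
      rw [hBeq, ← sub_mul, abs_mul, abs_of_pos hBpos, ← mul_assoc] at hE1
      have h4 := le_of_mul_le_mul_right hE1 hBpos
      have hA2pos : (0 : ℝ) < ((a2 t * a1 t' : ℕ) : ℝ) := by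
        push_cast
        positivity
      have h5 : Real.log ((a2 t * a1 t' : ℕ) : ℝ) ≤ δ * h / 20000 := by
        refine le_trans (Real.log_le_log hA2pos (by exact_mod_cast le_max_right _ _))
          (hA2.trans ?_)
        rw [div_le_div_iff₀ (by positivity) (by norm_num)]
        have h6 : δ * L * g ≤ δ * h := by
          calc δ * L * g = δ * (g * L) := by ring
            _ ≤ δ * h := mul_le_mul_of_nonneg_left hgL hδ.le
        have h7 : δ * h * 20000 ≤ δ * h * (20000 * C) := by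
          apply mul_le_mul_of_nonneg_left _ (by positivity)
          linarith
        nlinarith
      have h6 := (Real.log_le_iff_le_exp hA2pos).1 h5
      have h7 : 8 * Real.exp (-(δ * h)) * ((a2 t * a1 t' : ℕ) : ℝ) < 1 := by
        calc 8 * Real.exp (-(δ * h)) * ((a2 t * a1 t' : ℕ) : ℝ)
            ≤ Real.exp (-(1 / 2 * (δ * h))) * Real.exp (δ * h / 20000) :=
              mul_le_mul hey h6 hA2pos.le (Real.exp_pos _).le
          _ = Real.exp (-(1 / 2 * (δ * h)) + δ * h / 20000) := by rw [Real.exp_add]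
          _ < 1 := by
              rw [Real.exp_lt_one_iff]
              linarith
      have h8 := lt_of_le_of_lt h4 h7
      have h9 : |((a1 t * a2 t' : ℕ) : ℤ) - ((a2 t * a1 t' : ℕ) : ℤ)| < 1 := by
        have : ((|((a1 t * a2 t' : ℕ) : ℤ) - ((a2 t * a1 t' : ℕ) : ℤ)| : ℤ) : ℝ) < ((1 : ℤ) : ℝ) := by
          rw [Int.cast_abs]
          push_cast at h8 ⊢
          exact h8
        exact_mod_cast this
      have h10 := Int.abs_lt_one_iff.1 h9
      have h11 : a1 t * a2 t' = a2 t * a1 t' := by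
        have := sub_eq_zero.1 h10
        exact_mod_cast this
      apply hxne
      rw [hx t ht0, hx t' ht0']
      have e3 : (a1 t : ℝ) / a2 t = (a1 t' : ℝ) / a2 t' := by
        rw [div_eq_div_iff pa2.ne' qa2.ne']
        have : ((a1 t * a2 t' : ℕ) : ℝ) = ((a2 t * a1 t' : ℕ) : ℝ) := by exact_mod_cast h11
        push_cast at this
        linarith
      have e4 : (b1 t : ℝ) / b2 t = (b1 t' : ℝ) / b2 t' := by
        rw [div_eq_div_iff pb2.ne' qb2.ne']
        have : ((b1 t * b2 t' : ℕ) : ℝ) = ((b2 t * b1 t' : ℕ) : ℝ) := by exact_mod_cast hBeq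
        push_cast at this
        linarith
      rw [e3, e4]
    exact pairInf g (b1 t * b2 t') (b2 t * b1 t') (a1 t * a2 t') (a2 t * a1 t') δ C h L hδ hδ1 hC
      hL hg hgL (Nat.mul_pos (hb1 t ht0) (hb2 t' ht0')) (Nat.mul_pos (hb2 t ht0) (hb1 t' ht0'))
      (Nat.mul_pos (ha1 t ht0) (ha2 t' ht0')) (Nat.mul_pos (ha2 t ht0) (ha1 t' ht0')) hBne
      hE0 hE1 hB2 hA2
  have hmaps : ∀ t ∈ T, f t ∈ Finset.Icc ⌊-(L / θ)⌋ ⌊L / θ⌋ := by
    intro t ht
    have pa1 : (0 : ℝ) < a1 t := by exact_mod_cast ha1 t ht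
    have pa2 : (0 : ℝ) < a2 t := by exact_mod_cast ha2 t ht
    have pb1 : (0 : ℝ) < b1 t := by exact_mod_cast hb1 t ht
    have pb2 : (0 : ℝ) < b2 t := by exact_mod_cast hb2 t ht
    have hlogeq : Real.log (x t) = Real.log κ + Real.log ((a1 t : ℝ) / a2 t) +
        g * Real.log ((b1 t : ℝ) / b2 t) := by
      rw [hx t ht, Real.log_mul (by positivity) (by positivity),
        Real.log_mul (by positivity) (by positivity), Real.log_pow]
    have h1 := abs_le.1 (abs_log_div_le (a1 t) (a2 t) (ha1 t ht) (ha2 t ht) _ (hA t ht))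
    have h2 := abs_le.1 (hx1 t ht)
    have h3 : Real.exp (-(δ * h)) ≤ 1 := by
      rw [Real.exp_le_one_iff]
      linarith
    have hAL : δ * L * g / (40000 * C) ≤ L * g / 2 := by
      rw [div_le_div_iff₀ (by positivity) (by norm_num)]
      have e1 : δ * L * g * 2 ≤ 1 * L * g * 2 := by
        apply mul_le_mul_of_nonneg_right _ (by norm_num)
        apply mul_le_mul_of_nonneg_right _ hg0.le
        exact mul_le_mul_of_nonneg_right hδ1 hL0.le
      have e2 : L * g * 2 ≤ L * g * (40000 * C) := by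
        apply mul_le_mul_of_nonneg_left _ (by positivity)
        linarith
      linarith
    have hg1 : (1 : ℝ) ≤ g := by
      have : (1 : ℝ) ≤ 10000 * C / δ := by
        rw [le_div_iff₀ hδ]
        nlinarith
      linarith
    have h4 : 4 ≤ L * g := by nlinarith
    have e3 : Real.log ((b1 t : ℝ) / b2 t) + Real.log κ / g =
        (Real.log (x t) - Real.log ((a1 t : ℝ) / a2 t)) / g := by
      rw [hlogeq]
      field_simp
      ring
    have h5 : |Real.log ((b1 t : ℝ) / b2 t) + Real.log κ / g| ≤ L := by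
      rw [e3, abs_div, abs_of_pos hg0, div_le_iff₀ hg0, abs_le]
      constructor <;> linarith [h1.1, h1.2, h2.1, h2.2]
    have h6 := abs_le.1 h5
    rw [Finset.mem_Icc]
    constructor
    · apply Int.floor_le_floor
      rw [← neg_div]
      exact div_le_div_of_nonneg_right h6.1 hθ0.le
    · apply Int.floor_le_floor
      exact div_le_div_of_nonneg_right h6.2 hθ0.le
  have hcard := Finset.card_le_card_of_injOn f hmaps hinjf
  rw [Int.card_Icc] at hcard
  have h1 : ((T.card : ℤ) : ℝ) ≤ ((⌊L / θ⌋ + 1 - ⌊-(L / θ)⌋ : ℤ) : ℝ) := by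
    have h2 : (T.card : ℤ) ≤ ((⌊L / θ⌋ + 1 - ⌊-(L / θ)⌋).toNat : ℤ) := by exact_mod_cast hcard
    have h3 : 0 ≤ ⌊L / θ⌋ + 1 - ⌊-(L / θ)⌋ := by
      have h4 : ⌊-(L / θ)⌋ ≤ ⌊L / θ⌋ := by
        apply Int.floor_le_floor
        have : 0 < L / θ := by positivity
        linarith
      omega
    rw [Int.toNat_of_nonneg h3] at h2
    exact_mod_cast h2
  push_cast at h1
  have h2 := Int.floor_le (L / θ)
  have h3 := Int.lt_floor_add_one (-(L / θ))
  have h4 : 2 * (L / θ) = 80 * L * Real.exp L := by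
    rw [hθ, Real.exp_neg]
    field_simp
    ring
  linarith

end Pool.Agent.Lib.Pabc13
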