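import Mathlib
import Pool.Agent.Lib.Pabc13.InfClass
import Pool.Agent.Lib.Pabc11.Setup
import Pool.Agent.Lib.Pabc1.RClass

open Finset

namespace Pool.Agent.Lib.Pabc13

open Pool.Agent.Lib.Pabc2 Pool.Agent.Lib.Pabc1 Pool.Agent.Lib.Pabc11

/-- A product of powers of the primes with a given label. -/
def pw (t : ℕ × ℕ) (l : Fin 3) (f : ℕ → ℕ) : ℕ :=
  ∏ p ∈ (N t).primeFactors.filter (fun p => lab t p = l), p ^ f p

theorem pw_pos (t : ℕ × ℕ) (l : Fin 3) (f : ℕ → ℕ) : 0 < pw t l f :=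
  Finset.prod_pos fun _ hp =>
    pow_pos (Nat.prime_of_mem_primeFactors (Finset.mem_filter.1 hp).1).pos _

theorem log_pw (t : ℕ × ℕ) (l : Fin 3) (f : ℕ → ℕ) :
    Real.log (pw t l f) = ∑ p ∈ (N t).primeFactors.filter (fun p => lab t p = l),
      (f p : ℝ) * Real.log p := by
  unfold pw
  push_cast
  rw [Real.log_prod]
  · exact Finset.sum_congr rfl fun p _ => Real.log_pow _ _
  · intro p hp
    exact pow_ne_zero _ (by
      exact_mod_cast (Nat.prime_of_mem_primeFactors (Finset.mem_filter.1 hp).1).ne_zero)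

/-- The factorisation of a member. -/
theorem comp_mul_pw {t : ℕ × ℕ} (h : IsT t) (l : Fin 3) (r : ℕ) (F κ : ℕ → ℕ) :
    comp t l * pw t l (fun p => (r * F p + κ p) - ex t p) =
      pw t l (fun p => ex t p - (r * F p + κ p)) * pw t l F ^ r * pw t l κ := by
  rw [comp_eq h l]
  unfold pw
  rw [← Finset.prod_pow, ← Finset.prod_mul_distrib, ← Finset.prod_mul_distrib,
    ← Finset.prod_mul_distrib]
  refine Finset.prod_congr rfl ?_
  intro p _
  rw [← pow_mul, ← pow_add, ← pow_add, ← pow_add]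
  congr 1
  rw [mul_comm (F p) r]
  dsimp only
  omega

theorem log_ratio_le {t : ℕ × ℕ} (h : IsT t) (δ : ℝ) (ha : Real.log t.1 ≤ (1 - δ) * ht t) :
    |Real.log (((t.1 + t.2 : ℕ) : ℝ) / t.2)| ≤ 2 * Real.exp (-(δ * ht t)) := by
  have h1 : (0 : ℝ) < t.1 := by exact_mod_cast h.1
  have h2 : (0 : ℝ) < t.2 := by exact_mod_cast h.pos2
  have h12 : (t.1 : ℝ) ≤ t.2 := by exact_mod_cast h.2.1
  have hc : (0 : ℝ) < (t.1 : ℝ) + t.2 := by linarith
  have e1 : ((t.1 + t.2 : ℕ) : ℝ) / t.2 = 1 + (t.1 : ℝ) / t.2 := by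
    push_cast
    field_simp
    ring
  rw [e1]
  have hq : 0 < (t.1 : ℝ) / t.2 := by positivity
  have h3 : 0 ≤ Real.log (1 + (t.1 : ℝ) / t.2) := Real.log_nonneg (by linarith)
  rw [abs_of_nonneg h3]
  have h4 : Real.log (1 + (t.1 : ℝ) / t.2) ≤ (t.1 : ℝ) / t.2 := by
    have := Real.log_le_sub_one_of_pos (show 0 < 1 + (t.1 : ℝ) / t.2 by linarith)
    linarith
  refine h4.trans ?_
  have h5 : (t.1 : ℝ) / t.2 ≤ 2 * ((t.1 : ℝ) / (t.1 + t.2)) := by
    rw [div_le_iff₀ h2]
    have : 2 * ((t.1 : ℝ) / (t.1 + t.2)) * t.2 = (t.1 : ℝ) * (2 * t.2) / (t.1 + t.2) := by ring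
    rw [this, le_div_iff₀ hc]
    nlinarith
  refine h5.trans ?_
  apply mul_le_mul_of_nonneg_left _ (by norm_num)
  rw [div_le_iff₀ hc]
  have h6 : (t.1 : ℝ) = Real.exp (Real.log t.1) := (Real.exp_log h1).symm
  have h7 : (t.1 : ℝ) + t.2 = Real.exp (ht t) := by
    unfold ht
    exact (Real.exp_log hc).symm
  rw [h7, ← Real.exp_add, h6]
  apply Real.exp_le_exp.2
  linarith

theorem ratio_inj {t s : ℕ × ℕ} (h : IsT t) (h' : IsT s)
    (he : ((t.1 + t.2 : ℕ) : ℝ) / t.2 = ((s.1 + s.2 : ℕ) : ℝ) / s.2) : t = s := by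
  have h2 : (0 : ℝ) < t.2 := by exact_mod_cast h.pos2
  have h2' : (0 : ℝ) < s.2 := by exact_mod_cast h'.pos2
  rw [div_eq_div_iff h2.ne' h2'.ne'] at he
  have h3 : (t.1 + t.2) * s.2 = (s.1 + s.2) * t.2 := by exact_mod_cast he
  have h4 : t.1 * s.2 = s.1 * t.2 := by nlinarith
  have c1 := h.2.2
  have c2 := h'.2.2
  have d1 : t.1 ∣ s.1 := by
    have : t.1 ∣ s.1 * t.2 := ⟨s.2, h4.symm⟩
    exact c1.dvd_of_dvd_mul_right this
  have d2 : s.1 ∣ t.1 := by
    have : s.1 ∣ t.1 * s.2 := ⟨t.2, h4⟩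
    exact c2.dvd_of_dvd_mul_right this
  have e1 : t.1 = s.1 := Nat.dvd_antisymm d1 d2
  have e2 : t.2 = s.2 := by
    rw [e1] at h4
    exact (Nat.eq_of_mul_eq_mul_left h'.1 h4).symm
  exact Prod.ext e1 e2

/-- **Archimedean class bound.** Triples `a + b = c` with `a ≤ c ^ (1 - δ)`, of nearly equal
heights, whose exponents are near to multiples of `r` (up to known shifts on a known set `S`). -/
theorem arch_class (T : Finset (ℕ × ℕ)) (r : ℕ) (δ h0 L W : ℝ) (S : Finset ℕ) (κ : ℕ → ℕ)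
    (lb : ℕ → Fin 3) (hδ : 0 < δ) (hδ1 : δ ≤ 1) (hL : 60000 / δ ≤ L) (hr : 60000 / δ ≤ r)
    (hrL : r * L ≤ h0) (hW : W ≤ δ * L * r / 240000)
    (hI : ∀ t ∈ T, IsT t) (hlo : ∀ t ∈ T, h0 ≤ ht t) (hhi : ∀ t ∈ T, ht t ≤ 2 * h0)
    (ha : ∀ t ∈ T, Real.log t.1 ≤ (1 - δ) * ht t)
    (hS : ∀ t ∈ T, ∀ p ∈ S, p ∈ (N t).primeFactors ∧ lab t p = lb p)
    (hκ : ∀ p, p ∉ S → κ p = 0)
    (hF : ∀ t ∈ T, ∃ F : ℕ → ℕ, ∑ p ∈ (N t).primeFactors.filter (fun p => lab t p ≠ 0),
      |(ex t p : ℝ) - (r * F p + κ p)| * Real.log p ≤ W) :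
    (T.card : ℝ) ≤ 80 * L * Real.exp L + 2 := by
  classical
  have hL0 : 0 < L := lt_of_lt_of_le (by positivity) hL
  have hr0 : (0 : ℝ) < r := lt_of_lt_of_le (by positivity) hr
  have hh0 : 0 < h0 := lt_of_lt_of_le (by positivity) hrL
  choose! F hF using hF
  have e12 : (1 : Fin 3) ≠ 0 := by decide
  have e20 : (2 : Fin 3) ≠ 0 := by decide
  have e21 : (2 : Fin 3) ≠ 1 := by decide
  -- the two parts of the error
  set up : ℕ × ℕ → Fin 3 → ℕ := fun t l => pw t l (fun p => ex t p - (r * F t p + κ p)) with hup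
  set dn : ℕ × ℕ → Fin 3 → ℕ := fun t l => pw t l (fun p => (r * F t p + κ p) - ex t p) with hdn
  have herr : ∀ t ∈ T, Real.log (up t 2) + Real.log (dn t 2) + (Real.log (up t 1) +
      Real.log (dn t 1)) ≤ W := by
    intro t ht'
    refine le_trans (le_of_eq ?_) (hF t ht')
    have hsplit : ∀ l, Real.log (up t l) + Real.log (dn t l) =
        ∑ p ∈ (N t).primeFactors.filter (fun p => lab t p = l),
          |(ex t p : ℝ) - (r * F t p + κ p)| * Real.log p := by
      intro l
      rw [hup, hdn]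
      simp only []
      rw [log_pw, log_pw, ← Finset.sum_add_distrib]
      refine Finset.sum_congr rfl ?_
      intro p _
      rw [← add_mul]
      congr 1
      rcases le_total (ex t p) (r * F t p + κ p) with h | h
      · rw [Nat.sub_eq_zero_of_le h, Nat.cast_zero, zero_add, Nat.cast_sub h, abs_of_nonpos]
        · push_cast; ring
        · have : (ex t p : ℝ) ≤ ((r * F t p + κ p : ℕ) : ℝ) := by exact_mod_cast h
          push_cast at this
          linarith
      · rw [Nat.sub_eq_zero_of_le h, Nat.cast_zero, add_zero, Nat.cast_sub h, abs_of_nonneg]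
        · push_cast; ring
        · have : ((r * F t p + κ p : ℕ) : ℝ) ≤ (ex t p : ℝ) := by exact_mod_cast h
          push_cast at this
          linarith
    rw [hsplit, hsplit]
    rw [← Finset.sum_union]
    · refine Finset.sum_congr ?_ (fun _ _ => rfl)
      ext p
      simp only [Finset.mem_union, Finset.mem_filter]
      constructor
      · rintro (⟨h1, h2⟩ | ⟨h1, h2⟩)
        · exact ⟨h1, by rw [h2]; exact e20⟩
        · exact ⟨h1, by rw [h2]; exact e12⟩
      · rintro ⟨h1, h2⟩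
        have : lab t p = 2 ∨ lab t p = 1 := by
          have := h2
          generalize lab t p = l at this
          omega
        rcases this with h3 | h3
        · exact Or.inl ⟨h1, h3⟩
        · exact Or.inr ⟨h1, h3⟩
    · rw [Finset.disjoint_filter]
      intro p _ h1 h2
      rw [h1] at h2
      exact e21 h2
  have lnn : ∀ m : ℕ, 0 ≤ Real.log (m : ℝ) := fun m => Real.log_natCast_nonneg m
  -- the common factor
  set κl : Fin 3 → ℕ := fun l => ∏ p ∈ S.filter (fun p => lb p = l), p ^ κ p with hκl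
  have hκeq : ∀ t ∈ T, ∀ l, pw t l κ = κl l := by
    intro t ht' l
    rw [hκl]
    unfold pw
    symm
    apply Finset.prod_subset
    · intro p hp
      rw [Finset.mem_filter] at hp ⊢
      have := hS t ht' p hp.1
      exact ⟨this.1, by rw [this.2]; exact hp.2⟩
    · intro p hp hnp
      rw [Finset.mem_filter] at hp hnp
      have : p ∉ S := by
        intro hpS
        apply hnp
        refine ⟨hpS, ?_⟩
        rw [← (hS t ht' p hpS).2]
        exact hp.2
      rw [hκ p this, pow_zero]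
  rcases T.eq_empty_or_nonempty with hTe | ⟨t0, ht0⟩
  · rw [hTe, Finset.card_empty, Nat.cast_zero]
    positivity
  have hκpos : ∀ l, (0 : ℝ) < κl l := by
    intro l
    rw [← hκeq t0 ht0 l]
    exact_mod_cast pw_pos _ _ _
  set a1 : ℕ × ℕ → ℕ := fun t => up t 2 * dn t 1 with ha1
  set a2 : ℕ × ℕ → ℕ := fun t => dn t 2 * up t 1 with ha2
  set b1 : ℕ × ℕ → ℕ := fun t => pw t 2 (F t) with hb1
  set b2 : ℕ × ℕ → ℕ := fun t => pw t 1 (F t) with hb2
  have pup : ∀ t l, 0 < up t l := fun t l => pw_pos _ _ _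
  have pdn : ∀ t l, 0 < dn t l := fun t l => pw_pos _ _ _
  have hWh : W ≤ h0 := by
    refine hW.trans ?_
    have h1 : δ * L * r ≤ h0 := by
      calc δ * L * r = δ * (r * L) := by ring
        _ ≤ 1 * (r * L) := mul_le_mul_of_nonneg_right hδ1 (by positivity)
        _ ≤ h0 := by linarith
    have h2 : 0 < δ * L * r := by positivity
    linarith
  have hlogF : ∀ t ∈ T, ∀ l : Fin 3, l = 1 ∨ l = 2 → Real.log (pw t l (F t)) ≤ 6 * h0 / (2 * r) := by
    intro t ht' l hl
    have hfac := comp_mul_pw (hI t ht') l r (F t) κ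
    have hfac' : (comp t l : ℝ) * dn t l = up t l * (pw t l (F t) : ℝ) ^ r * pw t l κ := by
      exact_mod_cast hfac
    have hcp : (0 : ℝ) < comp t l := by exact_mod_cast comp_pos (hI t ht') l
    have p1 : (0 : ℝ) < dn t l := by exact_mod_cast pdn t l
    have p2 : (0 : ℝ) < up t l := by exact_mod_cast pup t l
    have p3 : (0 : ℝ) < pw t l (F t) := by exact_mod_cast pw_pos t l (F t)
    have p4 : (0 : ℝ) < pw t l κ := by exact_mod_cast pw_pos t l κ
    have hlog := congrArg Real.log hfac'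
    rw [Real.log_mul hcp.ne' p1.ne', Real.log_mul (by positivity) p4.ne',
      Real.log_mul p2.ne' (by positivity), Real.log_pow] at hlog
    have h1 := log_comp_le (hI t ht') l
    have h2 := herr t ht'
    have h3 := hhi t ht'
    have h4 : Real.log (dn t l) ≤ W := by
      rcases hl with rfl | rfl
      · have := lnn (up t 2); have := lnn (dn t 2); have := lnn (up t 1)
        linarith
      · have := lnn (up t 2); have := lnn (dn t 1); have := lnn (up t 1)
        linarith
    have h5 := lnn (up t l)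
    have h6 := lnn (pw t l κ)
    have h7 : (r : ℝ) * Real.log (pw t l (F t)) ≤ 3 * h0 := by linarith
    rw [le_div_iff₀ (by positivity)]
    linarith
  have key := classInf T r δ 6 h0 L ((κl 2 : ℝ) / κl 1) (fun t => ((t.1 + t.2 : ℕ) : ℝ) / t.2)
    a1 a2 b1 b2 hδ hδ1 (by norm_num) (by
      refine le_trans (le_of_eq ?_) hL
      ring) (by
      refine le_trans (le_of_eq ?_) hr
      ring) hrL (div_pos (hκpos 2) (hκpos 1))
    (fun t _ => Nat.mul_pos (pup _ _) (pdn _ _)) (fun t _ => Nat.mul_pos (pdn _ _) (pup _ _))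
    (fun t _ => pw_pos _ _ _) (fun t _ => pw_pos _ _ _)
    (by
      intro t ht'
      have f2 := comp_mul_pw (hI t ht') 2 r (F t) κ
      have f1 := comp_mul_pw (hI t ht') 1 r (F t) κ
      rw [hκeq t ht'] at f1 f2
      have f2' : ((t.1 + t.2 : ℕ) : ℝ) * dn t 2 = up t 2 * (pw t 2 (F t) : ℝ) ^ r * κl 2 := by
        have : comp t 2 = t.1 + t.2 := by simp [comp, e20, e21]
        rw [this] at f2
        exact_mod_cast f2
      have f1' : (t.2 : ℝ) * dn t 1 = up t 1 * (pw t 1 (F t) : ℝ) ^ r * κl 1 := by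
        have : comp t 1 = t.2 := by simp [comp]
        rw [this] at f1
        exact_mod_cast f1
      have q1 : (0 : ℝ) < dn t 2 := by exact_mod_cast pdn t 2
      have q2 : (0 : ℝ) < dn t 1 := by exact_mod_cast pdn t 1
      have q3 : (0 : ℝ) < up t 2 := by exact_mod_cast pup t 2
      have q4 : (0 : ℝ) < up t 1 := by exact_mod_cast pup t 1
      have q5 : (0 : ℝ) < pw t 2 (F t) := by exact_mod_cast pw_pos t 2 (F t)
      have q6 : (0 : ℝ) < pw t 1 (F t) := by exact_mod_cast pw_pos t 1 (F t)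
      have q7 : (0 : ℝ) < t.2 := by exact_mod_cast (hI t ht').pos2
      have q8 := hκpos 1
      have q9 := hκpos 2
      rw [ha1, ha2, hb1, hb2]
      simp only []
      rw [div_pow]
      push_cast at f2' ⊢
      have e1 : ((t.1 : ℝ) + t.2) = up t 2 * (pw t 2 (F t) : ℝ) ^ r * κl 2 / dn t 2 := by
        rw [eq_div_iff q1.ne']
        exact f2'
      have e2 : (t.2 : ℝ) = up t 1 * (pw t 1 (F t) : ℝ) ^ r * κl 1 / dn t 1 := by
        rw [eq_div_iff q2.ne']
        exact f1'
      rw [e1, e2]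
      field_simp)
    (by
      intro t ht'
      refine (log_ratio_le (hI t ht') δ (ha t ht')).trans ?_
      apply mul_le_mul_of_nonneg_left _ (by norm_num)
      apply Real.exp_le_exp.2
      have := mul_le_mul_of_nonneg_left (hlo t ht') hδ.le
      linarith)
    (by
      intro t ht' s hs he
      exact ratio_inj (hI t ht') (hI s hs) he)
    (by
      intro t ht'
      have h2 := herr t ht'
      have n1 := lnn (up t 2)
      have n2 := lnn (dn t 2)
      have n3 := lnn (up t 1)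
      have n4 := lnn (dn t 1)
      have q1 : (0 : ℝ) < dn t 2 := by exact_mod_cast pdn t 2
      have q2 : (0 : ℝ) < dn t 1 := by exact_mod_cast pdn t 1
      have q3 : (0 : ℝ) < up t 2 := by exact_mod_cast pup t 2
      have q4 : (0 : ℝ) < up t 1 := by exact_mod_cast pup t 1
      have hle : δ * L * r / (40000 * 6) = δ * L * r / 240000 := by norm_num
      rw [hle]
      refine le_trans ?_ hW
      rcases le_total (a1 t) (a2 t) with h | h
      · rw [max_eq_right h, ha2]
        simp only []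
        rw [Nat.cast_mul, Real.log_mul q1.ne' q4.ne']
        linarith
      · rw [max_eq_left h, ha1]
        simp only []
        rw [Nat.cast_mul, Real.log_mul q3.ne' q2.ne']
        linarith)
    (by
      intro t ht'
      rcases le_total (b1 t) (b2 t) with h | h
      · rw [max_eq_right h]
        exact hlogF t ht' 1 (Or.inl rfl)
      · rw [max_eq_left h]
        exact hlogF t ht' 2 (Or.inr rfl))
  exact key

/-- The special case without known primes, in terms of `Appr`. -/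
theorem arch_appr (T : Finset (ℕ × ℕ)) (r : ℕ) (δ h0 L W : ℝ) (hδ : 0 < δ) (hδ1 : δ ≤ 1)
    (hL : 60000 / δ ≤ L) (hr : 60000 / δ ≤ r)
    (hrL : r * L ≤ h0) (hW : W ≤ δ * L * r / 240000)
    (hI : ∀ t ∈ T, IsT t) (hlo : ∀ t ∈ T, h0 ≤ ht t) (hhi : ∀ t ∈ T, ht t ≤ 2 * h0)
    (ha : ∀ t ∈ T, Real.log t.1 ≤ (1 - δ) * ht t) (hF : ∀ t ∈ T, Appr r W t) :
    (T.card : ℝ) ≤ 80 * L * Real.exp L + 2 := by
  refine arch_class T r δ h0 L W ∅ (fun _ => 0) (fun _ => 0) hδ hδ1 hL hr hrL hW hI hlo hhi ha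
    (fun t _ p hp => absurd hp (Finset.notMem_empty p)) (fun _ _ => rfl) ?_
  intro t ht'
  obtain ⟨F, hF'⟩ := hF t ht'
  refine ⟨F, le_trans ?_ hF'⟩
  simp only [Nat.cast_zero, add_zero]
  apply Finset.sum_le_sum_of_subset_of_nonneg (Finset.filter_subset _ _)
  intro p _ _
  exact mul_nonneg (abs_nonneg _) (Real.log_natCast_nonneg _)

end Pool.Agent.Lib.Pabc13
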