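import Mathlib
import Pool.Agent.Lib.Pabc13.InfArch
import Pool.Agent.Lib.Pabc1.RCount
import Pool.Agent.Lib.Pabc2.Count

open Finset Filter

namespace Pool.Agent.Lib.Pabc13

open Pool.Agent.Lib.Pabc2 Pool.Agent.Lib.Pabc1 Pool.Agent.Lib.Pabc11

/-- Unbalanced triples of one class; general exponent `δ`. -/
theorem count_unbalanced_gen (δ ε : ℝ) (hδ : 0 < δ) (hδ1 : δ ≤ 1) (hε : 0 < ε) (hε1 : ε ≤ 1) :
    ∃ η K' R0 : ℝ, 0 < η ∧ η ≤ 1 ∧ 1 ≤ K' ∧ 1 ≤ R0 ∧ ∀ᶠ n : ℕ in atTop,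
      ∀ (H : ℝ) (r : ℕ) (T : Finset (ℕ × ℕ)), R0 ≤ r → K' * r * Real.log n ≤ H →
      (∀ t ∈ T, IsT t ∧ H ≤ ht t ∧ ht t ≤ 2 * H ∧ Real.log t.1 ≤ (1 - δ) * ht t ∧
        Appr r (η * r * Real.log n) t) →
      (T.card : ℝ) ≤ (n : ℝ) ^ ε := by
  refine ⟨δ * ε / 480000, 1, 60000 / δ, by positivity, ?_, le_refl _, ?_, ?_⟩
  · rw [div_le_one (by norm_num)]
    nlinarith
  · rw [le_div_iff₀ hδ]
    linarith
  have hlim : Tendsto (fun n : ℕ => Real.log (n : ℝ)) atTop atTop :=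
    Real.tendsto_log_atTop.comp tendsto_natCast_atTop_atTop
  filter_upwards [hlim.eventually (eventually_ge_atTop (60000 / δ / (ε / 2) + 1)),
    ev_log_pow_le (40 * ε + 2) 1 (ε / 2) (by positivity), eventually_ge_atTop 1] with
    n hn hpow hn1 H r T hR hK hT
  set x := Real.log (n : ℝ) with hx
  have hx1 : 1 ≤ x := by
    have : 0 ≤ 60000 / δ / (ε / 2) := by positivity
    linarith
  have hn0 : (0 : ℝ) < n := by exact_mod_cast hn1
  have hn1' : (1 : ℝ) ≤ n := by exact_mod_cast hn1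
  have hr0 : (0 : ℝ) < r := lt_of_lt_of_le (by positivity) hR
  have hL : 60000 / δ ≤ ε / 2 * x := by
    have h1 : 60000 / δ / (ε / 2) ≤ x := by linarith
    rw [div_le_iff₀ (by positivity)] at h1
    linarith
  have key := arch_appr T r δ H (ε / 2 * x) (δ * ε / 480000 * r * x) hδ hδ1 hL hR (by
      have h1 : (r : ℝ) * (ε / 2 * x) ≤ r * x := by
        apply mul_le_mul_of_nonneg_left _ hr0.le
        nlinarith
      linarith) (by
      apply le_of_eq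
      ring) (fun t h => (hT t h).1) (fun t h => (hT t h).2.1) (fun t h => (hT t h).2.2.1)
      (fun t h => (hT t h).2.2.2.1) (fun t h => (hT t h).2.2.2.2)
  have hexp : Real.exp (ε / 2 * x) = (n : ℝ) ^ (ε / 2) := by
    rw [Real.rpow_def_of_pos hn0]
    congr 1
    rw [hx]
    ring
  rw [hexp] at key
  have hpow1 : (1 : ℝ) ≤ (n : ℝ) ^ (ε / 2) := Real.one_le_rpow hn1' (by positivity)
  rw [Real.rpow_one] at hpow
  have h3 : 80 * (ε / 2 * x) * (n : ℝ) ^ (ε / 2) + 2 ≤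
      ((40 * ε + 2) * x) * (n : ℝ) ^ (ε / 2) := by
    have h4 : 2 ≤ 2 * x * (n : ℝ) ^ (ε / 2) := by nlinarith
    nlinarith
  calc (T.card : ℝ) ≤ ((40 * ε + 2) * x) * (n : ℝ) ^ (ε / 2) := key.trans h3
    _ ≤ (n : ℝ) ^ (ε / 2) * (n : ℝ) ^ (ε / 2) := by
        apply mul_le_mul_of_nonneg_right hpow (by positivity)
    _ = (n : ℝ) ^ ε := by
        rw [← Real.rpow_add hn0]
        congr 1
        ring

/-- Unbalanced triples of one class, the form of `Pabc11.ClassU`. -/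
theorem count_unbalanced' (ε : ℝ) (hε : 0 < ε) (hε1 : ε ≤ 1) :
    ∃ η K' R0 : ℝ, 0 < η ∧ η ≤ 1 ∧ 1 ≤ K' ∧ 1 ≤ R0 ∧ ∀ᶠ n : ℕ in atTop,
      ∀ (H : ℝ) (r : ℕ) (T : Finset (ℕ × ℕ)), R0 ≤ r → K' * r * Real.log n ≤ H →
      (∀ t ∈ T, IsT t ∧ rd t ≤ n ∧ H ≤ ht t ∧ ht t ≤ 2 * H ∧ Real.log t.1 < 3 / 4 * ht t ∧
        Appr r (η * r * Real.log n) t) →
      (T.card : ℝ) ≤ (n : ℝ) ^ ε := by
  obtain ⟨η, K', R0, h1, h2, h3, h4, h5⟩ := count_unbalanced_gen (1 / 4) ε (by norm_num)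
    (by norm_num) hε hε1
  refine ⟨η, K', R0, h1, h2, h3, h4, ?_⟩
  filter_upwards [h5] with n hn H r T hR hK hT
  exact hn H r T hR hK fun t ht' => ⟨(hT t ht').1, (hT t ht').2.2.1, (hT t ht').2.2.2.1,
    by have := (hT t ht').2.2.2.2.1; linarith, (hT t ht').2.2.2.2.2⟩

end Pool.Agent.Lib.Pabc13
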