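import Mathlib
import Pool.Agent.Lib.Pabc13.InfArch
import Pool.Agent.Lib.Pabc10.Dir
import Pool.Agent.Lib.Pabc1.RCount
import Pool.Agent.Lib.Pabc1.SCount
import Pool.Agent.Lib.Pabc2.Count

/-!
# Counting unbalanced triples with a known set of primes and few distinct unknown exponents
-/

open Finset Filter

namespace Pool.Agent.Lib.Pabc13

open Pool.Agent.Lib.Pabc2 Pool.Agent.Lib.Pabc1 Pool.Agent.Lib.Pabc11

/-- A common scale for the exponents. -/
theorem dir_H (H : Finset ℕ) (e : ℕ → ℕ) (Q k : ℕ) (hQ : 1 ≤ Q) (hk : (H.image e).card ≤ k)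
    (Λ : ℝ) (hΛ : 0 < Λ) :
    ∃ m : ℕ, 1 ≤ m ∧ m ≤ Q ^ k ∧ ∃ F : ℕ → ℕ, ∀ p ∈ H,
      |(e p : ℝ) - Λ / m * F p| ≤ Λ / m / Q := by
  classical
  obtain ⟨m, hm1, hmQ, hm⟩ := Pool.Agent.Lib.Pabc10.dirichlet_sim (H.image e)
    (fun b => (b : ℝ) / Λ) Q hQ
  choose! n hn using hm
  have hm0 : (0 : ℝ) < m := by exact_mod_cast hm1
  have hQ0 : (0 : ℝ) < Q := by exact_mod_cast hQ
  refine ⟨m, hm1, hmQ.trans (Nat.pow_le_pow_right hQ hk), fun p => (n (e p)).toNat, ?_⟩
  intro p hp
  have h1 := hn (e p) (Finset.mem_image_of_mem e hp)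
  have hy : (0 : ℝ) ≤ (m : ℝ) * ((e p : ℝ) / Λ) := by positivity
  have h2 : |(m : ℝ) * ((e p : ℝ) / Λ) - (((n (e p)).toNat : ℕ) : ℝ)| ≤ 1 / Q := by
    rcases le_or_gt 0 (n (e p)) with hnn | hneg
    · have hcast : (((n (e p)).toNat : ℕ) : ℝ) = (n (e p) : ℝ) := by
        have : (((n (e p)).toNat : ℤ)) = n (e p) := Int.toNat_of_nonneg hnn
        exact_mod_cast this
      rw [hcast]
      exact h1
    · have h3 : (n (e p)).toNat = 0 := Int.toNat_of_nonpos hneg.le
      rw [h3, Nat.cast_zero, sub_zero, abs_of_nonneg hy]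
      have h4 : ((n (e p) : ℤ) : ℝ) < 0 := by exact_mod_cast hneg
      have h5 := (abs_le.1 h1).2
      linarith
  have e1 : (e p : ℝ) - Λ / m * (((n (e p)).toNat : ℕ) : ℝ) =
      Λ / m * ((m : ℝ) * ((e p : ℝ) / Λ) - (((n (e p)).toNat : ℕ) : ℝ)) := by
    field_simp
  rw [e1, abs_mul, abs_of_pos (by positivity)]
  calc Λ / m * |(m : ℝ) * ((e p : ℝ) / Λ) - (((n (e p)).toNat : ℕ) : ℝ)| ≤ Λ / m * (1 / Q) :=
        mul_le_mul_of_nonneg_left h2 (by positivity)
    _ = Λ / m / Q := by ring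

/-- Equal codes give nearly equal residues. -/
theorem mod_close (a b r Q : ℕ) (hr : 0 < r) (hQ : 0 < Q)
    (h : (a % r) * Q / r = (b % r) * Q / r) : |((a % r : ℕ) : ℝ) - ((b % r : ℕ) : ℝ)| ≤ r / Q := by
  have hr0 : (0 : ℝ) < r := by exact_mod_cast hr
  have hQ0 : (0 : ℝ) < Q := by exact_mod_cast hQ
  set q := (a % r) * Q / r with hq
  have h1 : r * q ≤ (a % r) * Q := Nat.mul_div_le _ _
  have h2 : (a % r) * Q < r * q + r := by
    rw [hq]
    have := Nat.lt_div_mul_add (a := (a % r) * Q) hr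
    linarith [this, mul_comm r ((a % r) * Q / r)]
  have h3 : r * q ≤ (b % r) * Q := by
    rw [h]
    exact Nat.mul_div_le _ _
  have h4 : (b % r) * Q < r * q + r := by
    rw [h]
    have := Nat.lt_div_mul_add (a := (b % r) * Q) hr
    linarith [this, mul_comm r ((b % r) * Q / r)]
  have h1' : (r : ℝ) * q ≤ ((a % r : ℕ) : ℝ) * Q := by exact_mod_cast h1
  have h2' : ((a % r : ℕ) : ℝ) * Q < r * q + r := by exact_mod_cast h2
  have h3' : (r : ℝ) * q ≤ ((b % r : ℕ) : ℝ) * Q := by exact_mod_cast h3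
  have h4' : ((b % r : ℕ) : ℝ) * Q < r * q + r := by exact_mod_cast h4
  have e1 : |((a % r : ℕ) : ℝ) - ((b % r : ℕ) : ℝ)| * Q =
      |(((a % r : ℕ) : ℝ) - ((b % r : ℕ) : ℝ)) * Q| := by rw [abs_mul, abs_of_pos hQ0]
  rw [le_div_iff₀ hQ0, e1, abs_le]
  constructor <;> nlinarith

/-- The total error. -/
theorem sum_err_le {t : ℕ × ℕ} (h : IsT t) (n : ℕ) (hrd : rd t ≤ n) (S H : Finset ℕ)
    (F e0 : ℕ → ℕ) (r Q : ℕ) (r' c : ℝ) (hr : 0 < r) (hQ : 0 < Q) (hrr : (r : ℝ) ≤ r')
    (hrr1 : r' ≤ r + 1)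
    (hS : ∀ p ∈ S, (ex t p % r) * Q / r = (e0 p % r) * Q / r)
    (hH : ∀ p ∈ H, |(ex t p : ℝ) - r' * F p| ≤ r' / Q)
    (hc : ∑ p ∈ ((N t).primeFactors \ (S ∪ H)).filter (fun p => lab t p ≠ 0), u t p ≤ c) :
    ∑ p ∈ (N t).primeFactors.filter (fun p => lab t p ≠ 0),
      |(ex t p : ℝ) - (r * (if p ∈ S then ex t p / r else if p ∈ H then F p else 0 : ℕ) +
        (if p ∈ S then e0 p % r else 0 : ℕ))| * Real.log p ≤
      (r' + 1) / Q * Real.log n + 3 * ht t / r' + c * ht t := by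
  classical
  have hr0 : (0 : ℝ) < r := by exact_mod_cast hr
  have hQ0 : (0 : ℝ) < Q := by exact_mod_cast hQ
  have hr'0 : 0 < r' := by linarith
  have hht := ht_pos h
  set PF := (N t).primeFactors with hPF
  have hlogp : ∀ p : ℕ, 0 ≤ Real.log (p : ℝ) := fun p => Real.log_natCast_nonneg p
  have hterm : ∀ p ∈ PF.filter (fun p => lab t p ≠ 0),
      |(ex t p : ℝ) - (r * (if p ∈ S then ex t p / r else if p ∈ H then F p else 0 : ℕ) +
        (if p ∈ S then e0 p % r else 0 : ℕ))| * Real.log p ≤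
      (r' + 1) / Q * Real.log p + (ex t p : ℝ) * Real.log p / r' +
        (if p ∈ S ∪ H then 0 else (ex t p : ℝ) * Real.log p) := by
    intro p _
    have hl := hlogp p
    have hex : (0 : ℝ) ≤ ex t p := Nat.cast_nonneg _
    have hnn1 : 0 ≤ (ex t p : ℝ) * Real.log p / r' := by positivity
    by_cases hpS : p ∈ S
    · have hmem : p ∈ S ∪ H := Finset.mem_union_left _ hpS
      rw [if_pos hpS, if_pos hpS, if_pos hmem, add_zero]
      have e1 : (ex t p : ℝ) = r * ((ex t p / r : ℕ) : ℝ) + ((ex t p % r : ℕ) : ℝ) := by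
        exact_mod_cast (Nat.div_add_mod (ex t p) r).symm
      have e2 : (ex t p : ℝ) - (r * ((ex t p / r : ℕ) : ℝ) + ((e0 p % r : ℕ) : ℝ)) =
          ((ex t p % r : ℕ) : ℝ) - ((e0 p % r : ℕ) : ℝ) := by
        linarith
      rw [e2]
      have h1 := mod_close (ex t p) (e0 p) r Q hr hQ (hS p hpS)
      have h2 : (r : ℝ) / Q ≤ (r' + 1) / Q := div_le_div_of_nonneg_right (by linarith) hQ0.le
      have h3 := mul_le_mul_of_nonneg_right (h1.trans h2) hl
      linarith
    · by_cases hpH : p ∈ H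
      · have hmem : p ∈ S ∪ H := Finset.mem_union_right _ hpH
        rw [if_neg hpS, if_pos hpH, if_neg hpS, if_pos hmem, add_zero, Nat.cast_zero, add_zero]
        have h1 := hH p hpH
        have h2 := abs_le.1 h1
        have hF0 : (0 : ℝ) ≤ F p := Nat.cast_nonneg _
        have hFle : (F p : ℝ) ≤ (ex t p : ℝ) / r' + 1 / Q := by
          have h3 : r' * (F p : ℝ) ≤ ex t p + r' / Q := by linarith
          have h4 : (F p : ℝ) ≤ (ex t p + r' / Q) / r' := by
            rw [le_div_iff₀ hr'0]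
            linarith
          refine h4.trans (le_of_eq ?_)
          field_simp
        have h5 : |(ex t p : ℝ) - r * (F p : ℝ)| ≤ r' / Q + F p := by
          have e1 : (ex t p : ℝ) - r * (F p : ℝ) = (ex t p - r' * F p) + (r' - r) * F p := by ring
          rw [e1]
          refine (abs_add_le _ _).trans ?_
          have h6 : |(r' - r) * (F p : ℝ)| ≤ F p := by
            rw [abs_of_nonneg (mul_nonneg (by linarith) hF0)]
            have : (r' - r) * (F p : ℝ) ≤ 1 * F p :=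
              mul_le_mul_of_nonneg_right (by linarith) hF0
            linarith
          linarith
        have h7 : |(ex t p : ℝ) - r * (F p : ℝ)| ≤ (r' + 1) / Q + (ex t p : ℝ) / r' := by
          have : (r' + 1) / Q = r' / Q + 1 / Q := by ring
          linarith
        have h8 := mul_le_mul_of_nonneg_right h7 hl
        refine h8.trans (le_of_eq ?_)
        ring
      · have hmem : p ∉ S ∪ H := by
          rw [Finset.mem_union]
          push Not
          exact ⟨hpS, hpH⟩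
        rw [if_neg hpS, if_neg hpH, if_neg hpS, if_neg hmem]
        simp only [Nat.cast_zero, mul_zero, add_zero, sub_zero]
        rw [abs_of_nonneg hex]
        have : 0 ≤ (r' + 1) / Q * Real.log p := by positivity
        linarith
  refine (Finset.sum_le_sum hterm).trans ?_
  rw [Finset.sum_add_distrib, Finset.sum_add_distrib]
  have hpos : ∀ p ∈ PF, (0 : ℝ) < p := fun p hp => by
    exact_mod_cast (Nat.prime_of_mem_primeFactors hp).pos
  have s1 : ∑ p ∈ PF.filter (fun p => lab t p ≠ 0), (r' + 1) / Q * Real.log p ≤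
      (r' + 1) / Q * Real.log n := by
    rw [← Finset.mul_sum]
    apply mul_le_mul_of_nonneg_left _ (by positivity)
    have h1 : ∑ p ∈ PF.filter (fun p => lab t p ≠ 0), Real.log (p : ℝ) ≤
        ∑ p ∈ PF, Real.log (p : ℝ) :=
      Finset.sum_le_sum_of_subset_of_nonneg (Finset.filter_subset _ _) (fun p _ _ => hlogp p)
    refine h1.trans ?_
    rw [← Real.log_prod (fun p hp => (hpos p hp).ne')]
    apply Real.log_le_log (Finset.prod_pos hpos)
    have h2 : ((∏ p ∈ PF, p : ℕ) : ℝ) ≤ n := by exact_mod_cast hrd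
    rw [Nat.cast_prod] at h2
    exact h2
  have s2 : ∑ p ∈ PF.filter (fun p => lab t p ≠ 0), (ex t p : ℝ) * Real.log p / r' ≤
      3 * ht t / r' := by
    rw [← Finset.sum_div]
    apply div_le_div_of_nonneg_right _ hr'0.le
    have h1 : ∑ p ∈ PF.filter (fun p => lab t p ≠ 0), (ex t p : ℝ) * Real.log p ≤
        ∑ p ∈ PF, (ex t p : ℝ) * Real.log p :=
      Finset.sum_le_sum_of_subset_of_nonneg (Finset.filter_subset _ _)
        (fun p _ _ => mul_nonneg (Nat.cast_nonneg _) (hlogp p))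
    refine h1.trans ?_
    rw [hPF, sum_ex_log h]
    have := log_a_le h
    have := log_b_le h
    linarith
  have s3 : ∑ p ∈ PF.filter (fun p => lab t p ≠ 0),
      (if p ∈ S ∪ H then 0 else (ex t p : ℝ) * Real.log p) ≤ c * ht t := by
    have e1 : ∑ p ∈ PF.filter (fun p => lab t p ≠ 0),
        (if p ∈ S ∪ H then 0 else (ex t p : ℝ) * Real.log p) =
        (∑ p ∈ (PF \ (S ∪ H)).filter (fun p => lab t p ≠ 0), u t p) * ht t := by
      rw [Finset.sum_mul]
      have e2 : (PF \ (S ∪ H)).filter (fun p => lab t p ≠ 0) =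
          (PF.filter (fun p => lab t p ≠ 0)).filter (fun p => p ∉ S ∪ H) := by
        ext p
        simp only [Finset.mem_filter, Finset.mem_sdiff]
        tauto
      rw [e2, Finset.sum_filter (fun p => p ∉ S ∪ H)]
      refine Finset.sum_congr rfl ?_
      intro p _
      by_cases hm : p ∈ S ∪ H
      · rw [if_pos hm, if_neg (not_not.2 hm)]
      · rw [if_neg hm, if_pos hm]
        unfold u
        field_simp
    rw [e1]
    exact mul_le_mul_of_nonneg_right hc hht.le
  linarith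

/-- The scale of a triple for the code `(j, m)`. -/
noncomputable def scl (L : ℝ) (jm : ℕ × ℕ) : ℕ := ⌊(2 : ℝ) ^ jm.1 / L / jm.2⌋₊

/-- The code of a triple on a known set. -/
def resCode (S : Finset ℕ) (Q r : ℕ) (t : ℕ × ℕ) : (p : ℕ) → p ∈ S → Fin 3 × ℕ :=
  fun p _ => (lab t p, (ex t p % r) * Q / r)

/-- Triples with a given known set `S` and given code. -/
theorem fibre_code (δ : ℝ) (hδ : 0 < δ) (hδ1 : δ ≤ 1) (L x ω c : ℝ) (n Q k : ℕ)
    (hx : x = Real.log n) (hx1 : 1 ≤ x) (hL : 60000 / δ ≤ L) (hLx : L ≤ x)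
    (hω : 0 < ω) (hω1 : ω ≤ 1) (hωL : ω * x ≤ δ * L / 240000) (hQ : 32 / ω ≤ Q)
    (hc : c * Q ^ k ≤ ω / 32) (hc0 : 0 ≤ c)
    (S : Finset ℕ) (T : Finset (ℕ × ℕ)) (j m : ℕ) (hm1 : 1 ≤ m) (hmQ : m ≤ Q ^ k)
    (f : (p : ℕ) → p ∈ S → Fin 3 × ℕ)
    (hT : ∀ t ∈ T, IsT t ∧ rd t ≤ n ∧ (2 : ℝ) ^ j ≤ ht t ∧ ht t ≤ 2 * 2 ^ j ∧
      240000 / δ * Q ^ (2 * k) * x / ω ≤ ht t ∧
      Real.log t.1 ≤ (1 - δ) * ht t ∧ S ⊆ (N t).primeFactors ∧
      resCode S Q (scl L (j, m)) t = f ∧
      ∃ H : Finset ℕ, (∃ F : ℕ → ℕ, ∀ p ∈ H,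
        |(ex t p : ℝ) - (2 : ℝ) ^ j / L / m * F p| ≤ (2 : ℝ) ^ j / L / m / Q) ∧
        ∑ p ∈ ((N t).primeFactors \ (S ∪ H)).filter (fun p => lab t p ≠ 0), u t p ≤ c) :
    (T.card : ℝ) ≤ 80 * L * Real.exp L + 2 := by
  classical
  rcases T.eq_empty_or_nonempty with hTe | ⟨t0, ht0⟩
  · have hL0 : 0 < L := lt_of_lt_of_le (by positivity) hL
    rw [hTe, Finset.card_empty, Nat.cast_zero]
    positivity
  have hL0 : 0 < L := lt_of_lt_of_le (by positivity) hL
  have hx0 : 0 < x := by linarith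
  have hQ0 : (0 : ℝ) < Q := lt_of_lt_of_le (by positivity) hQ
  have hQn : 0 < Q := by exact_mod_cast hQ0
  have hQ1 : (1 : ℝ) ≤ Q := by exact_mod_cast hQn
  have hm0 : (0 : ℝ) < m := by exact_mod_cast hm1
  have hm1' : (1 : ℝ) ≤ m := by exact_mod_cast hm1
  have hmQ' : (m : ℝ) ≤ (Q : ℝ) ^ k := by exact_mod_cast hmQ
  set h0 : ℝ := (2 : ℝ) ^ j with hh0
  have hh00 : 0 < h0 := by positivity
  set r' : ℝ := h0 / L / m with hr'
  have hr'0 : 0 < r' := by positivity
  set r : ℕ := scl L (j, m) with hr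
  have hrf : r = ⌊r'⌋₊ := rfl
  have hrr : (r : ℝ) ≤ r' := by
    rw [hrf]
    exact Nat.floor_le hr'0.le
  have hrr1 : r' ≤ r + 1 := by
    rw [hrf]
    exact (Nat.lt_floor_add_one r').le
  -- the scale is large
  have hrm : r' * m * L = h0 := by
    rw [hr']
    field_simp
  have hbig : 120000 / δ * Q ^ (2 * k) * x / ω ≤ h0 := by
    obtain ⟨_, _, _, h4, h5, _⟩ := hT t0 ht0
    have e1 : 240000 / δ * (Q : ℝ) ^ (2 * k) * x / ω =
        2 * (120000 / δ * (Q : ℝ) ^ (2 * k) * x / ω) := by ring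
    rw [e1] at h5
    linarith
  have hr'big : 120000 / δ * m / ω ≤ r' := by
    have h1 : 120000 / δ * m / ω * (m * L) ≤ r' * (m * L) := by
      have e1 : r' * (m * L) = h0 := by rw [← hrm]; ring
      rw [e1]
      refine le_trans ?_ hbig
      have h2 : (m : ℝ) * m ≤ (Q : ℝ) ^ (2 * k) := by
        have : (Q : ℝ) ^ (2 * k) = (Q : ℝ) ^ k * (Q : ℝ) ^ k := by
          rw [← pow_add]
          congr 1
          ring
        rw [this]
        exact mul_le_mul hmQ' hmQ' hm0.le (by positivity)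
      calc 120000 / δ * m / ω * (m * L) = 120000 / δ / ω * (m * m) * L := by ring
        _ ≤ 120000 / δ / ω * (Q : ℝ) ^ (2 * k) * x := by gcongr
        _ = _ := by ring
    exact le_of_mul_le_mul_right h1 (by positivity)
  have hδinv : (120000 : ℝ) ≤ 120000 / δ := by
    rw [le_div_iff₀ hδ]
    nlinarith
  have hmω : (m : ℝ) ≤ m / ω := by
    rw [le_div_iff₀ hω]
    nlinarith
  have hr'2 : 120000 / δ ≤ r' := by
    have h1 : 120000 / δ * 1 ≤ 120000 / δ * (m / ω) :=
      mul_le_mul_of_nonneg_left (hm1'.trans hmω) (by positivity)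
    have e1 : 120000 / δ * (m / ω) = 120000 / δ * m / ω := by ring
    linarith
  have hr'1 : 120000 ≤ r' := by linarith
  have hr2 : r' + 1 ≤ 3 * r := by linarith
  have hr3 : r' ≤ 2 * r := by linarith
  have hr0 : (0 : ℝ) < r := by linarith
  have hrn : 0 < r := by exact_mod_cast hr0
  have hrδ : 60000 / δ ≤ r := by
    have e1 : 120000 / δ = 2 * (60000 / δ) := by ring
    rw [e1] at hr'2
    linarith
  have hmr : 60000 * (m : ℝ) ≤ ω * r := by
    have h1 : 120000 * (m / ω) ≤ r' := by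
      refine le_trans ?_ hr'big
      have : 120000 / δ * m / ω = 120000 / δ * (m / ω) := by ring
      rw [this]
      exact mul_le_mul_of_nonneg_right hδinv (by positivity)
    have h2 : 120000 * (m / ω) ≤ 2 * r := h1.trans hr3
    have h3 : ω * (120000 * (m / ω)) ≤ ω * (2 * r) := mul_le_mul_of_nonneg_left h2 hω.le
    have h4 : ω * (120000 * (m / ω)) = 120000 * m := by field_simp
    linarith
  have hcode : ∀ t ∈ T, ∀ p ∈ S, lab t p = lab t0 p ∧
      (ex t p % r) * Q / r = (ex t0 p % r) * Q / r := by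
    intro t ht' p hp
    obtain ⟨_, _, _, _, _, _, _, e, _⟩ := hT t ht'
    obtain ⟨_, _, _, _, _, _, _, e', _⟩ := hT t0 ht0
    have h1 := congrFun (congrFun (e.trans e'.symm) p) hp
    unfold resCode at h1
    exact Prod.ext_iff.mp h1
  refine arch_class T r δ h0 L (ω * r * x) S (fun p => if p ∈ S then ex t0 p % r else 0)
    (lab t0) hδ hδ1 hL hrδ ?_ ?_ (fun t h => (hT t h).1) (fun t h => (hT t h).2.2.1)
    (fun t h => (hT t h).2.2.2.1) (fun t h => (hT t h).2.2.2.2.2.1) ?_ ?_ ?_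
  · calc (r : ℝ) * L ≤ r' * L := mul_le_mul_of_nonneg_right hrr hL0.le
      _ ≤ r' * m * L := by
          apply mul_le_mul_of_nonneg_right _ hL0.le
          nlinarith
      _ = h0 := hrm
  · have h1 := mul_le_mul_of_nonneg_right hωL hr0.le
    have e1 : ω * r * x = ω * x * r := by ring
    have e2 : δ * L * r / 240000 = δ * L / 240000 * r := by ring
    rw [e1, e2]
    exact h1
  · intro t ht' p hp
    exact ⟨(hT t ht').2.2.2.2.2.2.1 hp, (hcode t ht' p hp).1⟩
  · intro p hp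
    exact if_neg hp
  · intro t ht'
    obtain ⟨hI, hrd, hlo, hhi, _, _, hSsub, _, H, ⟨F, hF⟩, hrest⟩ := hT t ht'
    refine ⟨fun p => if p ∈ S then ex t p / r else if p ∈ H then F p else 0, ?_⟩
    have key := sum_err_le hI n hrd S H F (fun p => ex t0 p) r Q r' c hrn hQn hrr hrr1
      (fun p hp => (hcode t ht' p hp).2) hF hrest
    refine key.trans ?_
    rw [← hx]
    have hht := ht_pos hI
    -- three terms
    have t1 : (r' + 1) / Q * x ≤ 3 / 32 * (ω * r * x) := by
      have h1 : (r' + 1) / Q ≤ 3 * r / Q := div_le_div_of_nonneg_right hr2 hQ0.le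
      have h2 : 3 * r / Q ≤ 3 / 32 * (ω * r) := by
        rw [div_le_iff₀ hQ0]
        rw [div_le_iff₀ hω] at hQ
        nlinarith
      have h3 := mul_le_mul_of_nonneg_right (h1.trans h2) hx0.le
      linarith
    have t2 : 3 * ht t / r' ≤ 1 / 32 * (ω * r * x) := by
      rw [div_le_iff₀ hr'0]
      have h1 : 3 * ht t ≤ 6 * (r' * m * L) := by
        rw [hrm]
        linarith
      have h2 : 6 * (m * L) ≤ 6 * (m * x) := by
        apply mul_le_mul_of_nonneg_left _ (by norm_num)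
        exact mul_le_mul_of_nonneg_left hLx hm0.le
      have h3 : 6 * (m * x) ≤ 1 / 32 * (ω * r * x) := by
        have := mul_le_mul_of_nonneg_right hmr hx0.le
        have hmx : 0 ≤ (m : ℝ) * x := by positivity
        linarith
      calc 3 * ht t ≤ 6 * (m * L) * r' := by linarith
        _ ≤ 1 / 32 * (ω * r * x) * r' := mul_le_mul_of_nonneg_right (h2.trans h3) hr'0.le
    have t3 : c * ht t ≤ 1 / 8 * (ω * r * x) := by
      have h1 : c * ht t ≤ c * (2 * (r' * m * L)) := by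
        apply mul_le_mul_of_nonneg_left _ hc0
        rw [hrm]
        exact hhi
      have h2 : c * (2 * (r' * m * L)) = 2 * (c * m) * (r' * L) := by ring
      have h3 : c * m ≤ ω / 32 := (mul_le_mul_of_nonneg_left hmQ' hc0).trans hc
      have h4 : r' * L ≤ 2 * r * x := mul_le_mul hr3 hLx hL0.le (by positivity)
      have h5 : 2 * (c * m) * (r' * L) ≤ 2 * (ω / 32) * (2 * r * x) := by
        apply mul_le_mul _ h4 (by positivity) (by positivity)
        linarith
      calc c * ht t ≤ 2 * (c * m) * (r' * L) := by linarith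
        _ ≤ 2 * (ω / 32) * (2 * r * x) := h5
        _ = 1 / 8 * (ω * r * x) := by ring
    have hpos : 0 ≤ ω * r * x := by positivity
    linarith

end Pool.Agent.Lib.Pabc13
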