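import Mathlib
import Pool.Agent.Lib.Pabc13.Count

open Finset Filter

namespace Pool.Agent.Lib.Pabc13

open Pool.Agent.Lib.Pabc2 Pool.Agent.Lib.Pabc1 Pool.Agent.Lib.Pabc11

/-- Triples with a given known set `S`. -/
theorem fibre_inf (δ : ℝ) (hδ : 0 < δ) (hδ1 : δ ≤ 1) (L x ω c A : ℝ) (n Q k : ℕ)
    (hx : x = Real.log n) (hx1 : 1 ≤ x) (hL : 60000 / δ ≤ L) (hLx : L ≤ x)
    (hω : 0 < ω) (hω1 : ω ≤ 1) (hωL : ω * x ≤ δ * L / 240000) (hQ : 32 / ω ≤ Q)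
    (hc : c * Q ^ k ≤ ω / 32) (hc0 : 0 ≤ c) (hA : 0 ≤ A)
    (S : Finset ℕ) (T : Finset (ℕ × ℕ))
    (hT : ∀ t ∈ T, IsT t ∧ rd t ≤ n ∧ 240000 / δ * Q ^ (2 * k) * x / ω ≤ ht t ∧
      ht t ≤ (n : ℝ) ^ A ∧ Real.log t.1 ≤ (1 - δ) * ht t ∧ S ⊆ (N t).primeFactors ∧
      ∃ H : Finset ℕ, (H.image (ex t)).card ≤ k ∧
        ∑ p ∈ ((N t).primeFactors \ (S ∪ H)).filter (fun p => lab t p ≠ 0), u t p ≤ c) :
    (T.card : ℝ) ≤ (80 * L * Real.exp L + 2) * ((2 * A + 1) * x) * (Q ^ k + 1) *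
      (3 * Q : ℝ) ^ S.card := by
  classical
  have hL0 : 0 < L := lt_of_lt_of_le (by positivity) hL
  have hx0 : 0 < x := by linarith
  have hQ0 : (0 : ℝ) < Q := lt_of_lt_of_le (by positivity) hQ
  have hQn : 0 < Q := by exact_mod_cast hQ0
  have hQ1 : (1 : ℝ) ≤ Q := by exact_mod_cast hQn
  have hn0 : (0 : ℝ) < n := by
    rcases Nat.eq_zero_or_pos n with h | h
    · rw [h] at hx
      simp at hx
      linarith
    · exact_mod_cast h
  have hbig1 : ∀ t ∈ T, 1 ≤ ht t := by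
    intro t ht'
    refine le_trans ?_ (hT t ht').2.2.1
    rw [le_div_iff₀ hω]
    have h1 : (1 : ℝ) ≤ (Q : ℝ) ^ (2 * k) := one_le_pow₀ hQ1
    have h2 : (1 : ℝ) ≤ 240000 / δ := by
      rw [le_div_iff₀ hδ]
      linarith
    have h3 : (1 : ℝ) ≤ 240000 / δ * (Q : ℝ) ^ (2 * k) := by nlinarith
    nlinarith
  -- the codes
  set jj : ℕ × ℕ → ℕ := fun t => Nat.log 2 ⌊ht t⌋₊ with hjj
  have hj1 : ∀ t ∈ T, (2 : ℝ) ^ jj t ≤ ht t := by
    intro t ht'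
    have h1 : ⌊ht t⌋₊ ≠ 0 := by
      have := (Nat.one_le_floor_iff (ht t)).2 (hbig1 t ht')
      omega
    have h2 := Nat.pow_log_le_self 2 h1
    have h3 : ((2 : ℝ)) ^ jj t ≤ (⌊ht t⌋₊ : ℝ) := by exact_mod_cast h2
    exact h3.trans (Nat.floor_le (by linarith [hbig1 t ht']))
  have hj2 : ∀ t ∈ T, ht t ≤ 2 * 2 ^ jj t := by
    intro t ht'
    have h2 := Nat.lt_pow_succ_log_self (b := 2) (by norm_num) ⌊ht t⌋₊
    have h3 : ⌊ht t⌋₊ + 1 ≤ 2 ^ (jj t + 1) := h2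
    have h4 : ((⌊ht t⌋₊ : ℝ) + 1) ≤ (2 : ℝ) ^ (jj t + 1) := by exact_mod_cast h3
    have h5 := Nat.lt_floor_add_one (ht t)
    rw [pow_succ] at h4
    linarith
  have hex : ∀ t ∈ T, ∃ m : ℕ, 1 ≤ m ∧ m ≤ Q ^ k ∧ ∃ H : Finset ℕ, (∃ F : ℕ → ℕ, ∀ p ∈ H,
      |(ex t p : ℝ) - (2 : ℝ) ^ jj t / L / m * F p| ≤ (2 : ℝ) ^ jj t / L / m / Q) ∧
      ∑ p ∈ ((N t).primeFactors \ (S ∪ H)).filter (fun p => lab t p ≠ 0), u t p ≤ c := by
    intro t ht'
    obtain ⟨_, _, _, _, _, _, H, hHk, hHc⟩ := hT t ht'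
    obtain ⟨m, hm1, hmQ, F, hF⟩ := dir_H H (ex t) Q k hQn hHk ((2 : ℝ) ^ jj t / L) (by positivity)
    exact ⟨m, hm1, hmQ, H, ⟨F, hF⟩, hHc⟩
  choose! m hm1 hmQ hm using hex
  set J : ℕ := ⌊2 * A * x⌋₊ with hJ
  set f : ℕ × ℕ → ((p : ℕ) → p ∈ S → Fin 3 × ℕ) × ℕ × ℕ :=
    fun t => (resCode S Q (scl L (jj t, m t)) t, jj t, m t) with hf
  set B0 : ℝ := 80 * L * Real.exp L + 2 with hB0
  have hB00 : 0 ≤ B0 := by positivity
  have h1 : T.card ≤ ⌊B0⌋₊ * (T.image f).card := by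
    apply Finset.card_le_mul_card_image
    intro cc hcc
    rw [Finset.mem_image] at hcc
    obtain ⟨t0, ht0, rfl⟩ := hcc
    apply Nat.le_floor
    have hmem : ∀ t ∈ T.filter (fun a => f a = f t0), t ∈ T ∧ f t = f t0 := by
      intro t h
      rwa [Finset.mem_filter] at h
    apply fibre_code δ hδ hδ1 L x ω c n Q k hx hx1 hL hLx hω hω1 hωL hQ hc hc0 S
      (T.filter (fun a => f a = f t0)) (jj t0) (m t0) (hm1 t0 ht0) (hmQ t0 ht0)
      (resCode S Q (scl L (jj t0, m t0)) t0)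
    intro t h
    obtain ⟨htT, hft⟩ := hmem t h
    simp only [hf, Prod.mk.injEq] at hft
    obtain ⟨e1, e2, e3⟩ := hft
    obtain ⟨g1, g2, g3, g4, g5, g6, _⟩ := hT t htT
    have q1 := hj1 t htT
    have q2 := hj2 t htT
    have q3 := hm t htT
    rw [e2, e3] at q3 e1
    rw [e2] at q1 q2
    exact ⟨g1, g2, q1, q2, g3, g5, g6, e1, q3⟩
  have h2 : (T.image f) ⊆ (S.pi (fun _ => (Finset.univ : Finset (Fin 3)) ×ˢ Finset.range Q)) ×ˢ
      (Finset.range (J + 1) ×ˢ Finset.range (Q ^ k + 1)) := by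
    intro cc hcc
    rw [Finset.mem_image] at hcc
    obtain ⟨t, ht', rfl⟩ := hcc
    simp only [Finset.mem_product, hf]
    refine ⟨?_, ?_, ?_⟩
    · rw [Finset.mem_pi]
      intro p hp
      rw [Finset.mem_product]
      refine ⟨Finset.mem_univ _, ?_⟩
      rw [Finset.mem_range]
      simp only [resCode]
      rcases Nat.eq_zero_or_pos (scl L (jj t, m t)) with hz | hz
      · rw [hz, Nat.div_zero]
        exact hQn
      · rw [Nat.div_lt_iff_lt_mul hz, mul_comm]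
        exact Nat.mul_lt_mul_of_pos_left (Nat.mod_lt _ hz) hQn
    · rw [Finset.mem_range, Nat.lt_succ_iff, hJ]
      apply Nat.le_floor
      have q1 := hj1 t ht'
      have q2 := (hT t ht').2.2.2.1
      have q3 : (2 : ℝ) ^ jj t ≤ (n : ℝ) ^ A := q1.trans q2
      have q4 := Real.log_le_log (by positivity) q3
      rw [Real.log_pow, Real.log_rpow hn0, ← hx] at q4
      have hl2' : 1 / 2 ≤ Real.log 2 := by linarith [Real.log_two_gt_d9]
      have q5 : (jj t : ℝ) * (1 / 2) ≤ jj t * Real.log 2 :=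
        mul_le_mul_of_nonneg_left hl2' (Nat.cast_nonneg _)
      linarith
    · rw [Finset.mem_range, Nat.lt_succ_iff]
      exact hmQ t ht'
  have h3 : ((T.image f).card : ℝ) ≤ (3 * Q : ℝ) ^ S.card * ((J + 1) * (Q ^ k + 1)) := by
    have := Finset.card_le_card h2
    rw [Finset.card_product, Finset.card_product, Finset.card_pi, Finset.card_range,
      Finset.card_range] at this
    simp only [Finset.card_product, Finset.card_univ, Fintype.card_fin, Finset.card_range,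
      Finset.prod_const] at this
    exact_mod_cast this
  have hJle : (J : ℝ) + 1 ≤ (2 * A + 1) * x := by
    have : (J : ℝ) ≤ 2 * A * x := Nat.floor_le (by positivity)
    linarith
  have h6 : (⌊B0⌋₊ : ℝ) ≤ B0 := Nat.floor_le hB00
  calc (T.card : ℝ) ≤ (⌊B0⌋₊ : ℝ) * (T.image f).card := by exact_mod_cast h1
    _ ≤ B0 * ((3 * Q : ℝ) ^ S.card * ((J + 1) * (Q ^ k + 1))) := by gcongr
    _ ≤ B0 * ((3 * Q : ℝ) ^ S.card * (((2 * A + 1) * x) * (Q ^ k + 1))) := by gcongr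
    _ = _ := by ring

/-- **Counting unbalanced triples**, uniformly in the number `k` of distinct exponents of the
unknown primes. -/
theorem count_inf (δ σ η A : ℝ) (hδ : 0 < δ) (hδ1 : δ ≤ 1) (hη : 0 < η) (hη1 : η ≤ 1)
    (hA : 0 ≤ A) :
    ∃ (Q : ℕ) (c C : ℝ), 1 ≤ Q ∧ 0 < c ∧ 0 < C ∧ ∀ᶠ n : ℕ in atTop, ∀ k : ℕ,
      (Q : ℝ) ^ k ≤ (n : ℝ) ^ (η / 8) → ∀ T : Finset (ℕ × ℕ),
      (∀ t ∈ T, IsT t ∧ rd t ≤ n ∧ C * Q ^ (2 * k) * Real.log n ≤ ht t ∧ ht t ≤ (n : ℝ) ^ A ∧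
        Real.log t.1 ≤ (1 - δ) * ht t ∧
        ∃ S H : Finset ℕ, S ⊆ (N t).primeFactors ∧ (H.image (ex t)).card ≤ k ∧
          ((∏ p ∈ S, p : ℕ) : ℝ) ≤ (n : ℝ) ^ σ ∧
          ∑ p ∈ ((N t).primeFactors \ (S ∪ H)).filter (fun p => lab t p ≠ 0), u t p ≤
            c / Q ^ k) →
      (T.card : ℝ) ≤ (n : ℝ) ^ (σ + η) := by
  classical
  set ω : ℝ := δ * η / 1920000 with hωdef
  have hω : 0 < ω := by positivity
  have hω1 : ω ≤ 1 := by
    rw [hωdef, div_le_one (by norm_num)]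
    nlinarith
  set Q : ℕ := ⌈32 / ω⌉₊ with hQdef
  have hQ : 32 / ω ≤ Q := Nat.le_ceil _
  have hQ0 : (0 : ℝ) < Q := lt_of_lt_of_le (by positivity) hQ
  have hQn : 0 < Q := by exact_mod_cast hQ0
  refine ⟨Q, ω / 32, 240000 / δ / ω, hQn, by positivity, by positivity, ?_⟩
  have hlim : Tendsto (fun n : ℕ => Real.log (n : ℝ)) atTop atTop :=
    Real.tendsto_log_atTop.comp tendsto_natCast_atTop_atTop
  filter_upwards [hlim.eventually (eventually_ge_atTop (60000 / δ / (η / 8) + 4)),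
    ev_log_pow_le (164 * (2 * A + 1)) (2 + 27 * (3 * Q)) (η / 2) (by positivity),
    eventually_ge_atTop 1] with n hn hpow hn1 k hk T hT
  set x := Real.log (n : ℝ) with hx
  have hx4 : 4 ≤ x := by
    have : 0 ≤ 60000 / δ / (η / 8) := by positivity
    linarith
  have hx1 : 1 ≤ x := by linarith
  have hx0 : 0 < x := by linarith
  have hn0 : (0 : ℝ) < n := by exact_mod_cast hn1
  have hn1' : (1 : ℝ) ≤ n := by exact_mod_cast hn1
  have hL : 60000 / δ ≤ η / 8 * x := by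
    have h1 : 60000 / δ / (η / 8) ≤ x := by linarith
    rw [div_le_iff₀ (by positivity)] at h1
    linarith
  have hLx : η / 8 * x ≤ x := by nlinarith
  have hωL : ω * x ≤ δ * (η / 8 * x) / 240000 := by
    apply le_of_eq
    rw [hωdef]
    ring
  choose! S H hSH using fun t (h : t ∈ T) => (hT t h).2.2.2.2.2
  set P := Nat.primesLE n with hP
  have hPp : ∀ p ∈ P, p.Prime := fun p hp => (Nat.mem_primesLE.mp hp).2
  have hsubP : ∀ t ∈ T, (N t).primeFactors ⊆ P := by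
    intro t htT p hp
    rw [hP, Nat.mem_primesLE]
    refine ⟨le_trans ?_ (hT t htT).2.1, Nat.prime_of_mem_primeFactors hp⟩
    exact Nat.le_of_dvd (Finset.prod_pos (fun q hq => (Nat.prime_of_mem_primeFactors hq).pos))
      (Finset.dvd_prod_of_mem (fun p => p) hp)
  set F := P.powerset.filter (fun S => ((∏ p ∈ S, p : ℕ) : ℝ) ≤ (n : ℝ) ^ σ) with hF
  have hmapsF : ∀ t ∈ T, S t ∈ F := by
    intro t ht'
    rw [hF, Finset.mem_filter, Finset.mem_powerset]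
    exact ⟨(hSH t ht').1.trans (hsubP t ht'), (hSH t ht').2.2.1⟩
  set B : ℝ := 3 * Q with hB
  have hB0 : 0 < B := by positivity
  set A0 : ℝ := (80 * (η / 8 * x) * Real.exp (η / 8 * x) + 2) * ((2 * A + 1) * x) * (Q ^ k + 1)
    with hA0
  have hA00 : 0 ≤ A0 := by positivity
  have h5 : (T.card : ℝ) ≤ A0 * ∑ S ∈ F, B ^ S.card := by
    rw [Finset.card_eq_sum_card_fiberwise (f := S) (t := F)
      (fun t ht => hmapsF t ht), Finset.mul_sum]
    push_cast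
    apply Finset.sum_le_sum
    intro S' _
    have hm : ∀ t ∈ T.filter (fun t => S t = S'), t ∈ T ∧ S t = S' := by
      intro t h
      rwa [Finset.mem_filter] at h
    have hQk : (0 : ℝ) < (Q : ℝ) ^ k := by positivity
    apply fibre_inf δ hδ hδ1 (η / 8 * x) x ω (ω / 32 / Q ^ k) A n Q k hx hx1 hL hLx hω hω1 hωL hQ
      (le_of_eq (by field_simp)) (by positivity) hA S'
    intro t h
    obtain ⟨g1, g2, g3, g4, g5, _⟩ := hT t (hm t h).1
    obtain ⟨q1, q2, q3, q4⟩ := hSH t (hm t h).1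
    rw [(hm t h).2] at q1 q4
    refine ⟨g1, g2, ?_, g4, g5, q1, H t, q2, q4⟩
    refine le_trans (le_of_eq ?_) g3
    field_simp
  have b2 := sum_small P hPp B ((n : ℝ) ^ σ) hB0.le (by positivity)
  have hmert := mert_le n B hB0.le hx4
  have hexp : Real.exp (η / 8 * x) = (n : ℝ) ^ (η / 8) := by
    rw [Real.rpow_def_of_pos hn0]
    congr 1
    rw [hx]
    ring
  have hpow1 : (1 : ℝ) ≤ (n : ℝ) ^ (η / 8) := Real.one_le_rpow hn1' (by positivity)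
  have hA0le : A0 ≤ 164 * (2 * A + 1) * x ^ (2 : ℝ) * (n : ℝ) ^ (η / 4) := by
    have e1 : 80 * (η / 8 * x) * Real.exp (η / 8 * x) + 2 ≤ 82 * x * (n : ℝ) ^ (η / 8) := by
      rw [hexp]
      have h7 : 80 * (η / 8 * x) ≤ 80 * x := by linarith
      have h8 : 2 ≤ 2 * x * (n : ℝ) ^ (η / 8) := by nlinarith
      have h9 : 80 * (η / 8 * x) * (n : ℝ) ^ (η / 8) ≤ 80 * x * (n : ℝ) ^ (η / 8) :=
        mul_le_mul_of_nonneg_right h7 (by positivity)
      linarith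
    have e2 : (Q : ℝ) ^ k + 1 ≤ 2 * (n : ℝ) ^ (η / 8) := by linarith
    have e3 : (n : ℝ) ^ (η / 4) = (n : ℝ) ^ (η / 8) * (n : ℝ) ^ (η / 8) := by
      rw [← Real.rpow_add hn0]
      congr 1
      ring
    rw [hA0, show (2 : ℝ) = ((2 : ℕ) : ℝ) by norm_num, Real.rpow_natCast, e3]
    push_cast
    calc (80 * (η / 8 * x) * Real.exp (η / 8 * x) + 2) * ((2 * A + 1) * x) * ((Q : ℝ) ^ k + 1)
        ≤ (82 * x * (n : ℝ) ^ (η / 8)) * ((2 * A + 1) * x) * (2 * (n : ℝ) ^ (η / 8)) := by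
          gcongr
      _ = 164 * (2 * A + 1) * x ^ 2 * ((n : ℝ) ^ (η / 8) * (n : ℝ) ^ (η / 8)) := by ring
  calc (T.card : ℝ) ≤ A0 * ∑ S ∈ F, B ^ S.card := h5
    _ ≤ A0 * ((n : ℝ) ^ σ * Real.exp (B * ∑ p ∈ P, 1 / (p : ℝ))) :=
        mul_le_mul_of_nonneg_left b2 hA00
    _ ≤ (164 * (2 * A + 1) * x ^ (2 : ℝ) * (n : ℝ) ^ (η / 4)) *
        ((n : ℝ) ^ σ * x ^ (27 * B)) := by gcongr
    _ = (164 * (2 * A + 1) * (x ^ (2 : ℝ) * x ^ (27 * B))) * ((n : ℝ) ^ (η / 4) * (n : ℝ) ^ σ) := by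
        ring
    _ = (164 * (2 * A + 1) * x ^ (2 + 27 * (3 * Q) : ℝ)) * ((n : ℝ) ^ (η / 4) * (n : ℝ) ^ σ) := by
        rw [Real.rpow_add hx0]
    _ ≤ (n : ℝ) ^ (η / 2) * ((n : ℝ) ^ (η / 4) * (n : ℝ) ^ σ) := by
        gcongr
    _ = (n : ℝ) ^ (σ + 3 / 4 * η) := by
        rw [← Real.rpow_add hn0, ← Real.rpow_add hn0]
        congr 1
        ring
    _ ≤ (n : ℝ) ^ (σ + η) := Real.rpow_le_rpow_of_exponent_le hn1' (by linarith)

/-- The version for a fixed number of unknown primes. -/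
theorem count_rootInf (δ σ η A : ℝ) (k : ℕ) (hδ : 0 < δ) (hη : 0 < η) (hA : 0 ≤ A) :
    ∃ c K : ℝ, 0 < c ∧ 0 < K ∧ ∀ᶠ n : ℕ in atTop, ∀ T : Finset (ℕ × ℕ),
      (∀ t ∈ T, IsT t ∧ rd t ≤ n ∧ K * Real.log n ≤ ht t ∧ ht t ≤ (n : ℝ) ^ A ∧
        Real.log t.1 ≤ (1 - δ) * ht t ∧
        ∃ S H : Finset ℕ, S ⊆ (N t).primeFactors ∧ (H.image (ex t)).card ≤ k ∧
          ((∏ p ∈ S, p : ℕ) : ℝ) ≤ (n : ℝ) ^ σ ∧
          ∑ p ∈ ((N t).primeFactors \ (S ∪ H)).filter (fun p => lab t p ≠ 0), u t p ≤ c) →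
      (T.card : ℝ) ≤ (n : ℝ) ^ (σ + η) := by
  obtain ⟨Q, c, C, hQ, hc, hC, hev⟩ := count_inf (min δ 1) σ (min η 1) A (lt_min hδ one_pos)
    (min_le_right _ _) (lt_min hη one_pos) (min_le_right _ _) hA
  have hQ0 : (0 : ℝ) < Q := by exact_mod_cast hQ
  have hη' : 0 < min η 1 := lt_min hη one_pos
  refine ⟨c / Q ^ k, C * Q ^ (2 * k), by positivity, by positivity, ?_⟩
  have hlim : Tendsto (fun n : ℕ => (n : ℝ) ^ (min η 1 / 8)) atTop atTop :=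
    (tendsto_rpow_atTop (by positivity)).comp tendsto_natCast_atTop_atTop
  filter_upwards [hev, hlim.eventually (eventually_ge_atTop ((Q : ℝ) ^ k)),
    eventually_ge_atTop 1] with n hn hn2 hn1 T hT
  have hn1' : (1 : ℝ) ≤ n := by exact_mod_cast hn1
  refine (hn k hn2 T ?_).trans (Real.rpow_le_rpow_of_exponent_le hn1' ?_)
  · intro t ht'
    obtain ⟨g1, g2, g3, g4, g5, g6⟩ := hT t ht'
    refine ⟨g1, g2, g3, g4, ?_, g6⟩
    refine g5.trans ?_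
    apply mul_le_mul_of_nonneg_right _ (ht_pos g1).le
    have := min_le_left δ 1
    linarith
  · have := min_le_left η 1
    linarith

end Pool.Agent.Lib.Pabc13
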