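import Mathlib
import Pool.Agent.Lib.Pabc13.CountInf
import Pool.Agent.Lib.AbcL.Large

/-!
# The archimedean root class in the form used by `AbcL.large_count`
-/

open Finset Filter

namespace Pool.Agent.Lib.Pabc13

open Pool.Agent.Lib.Pabc2 Pool.Agent.Lib.Pabc1 Pool.Agent.Lib.AbcL

/-- The hypothesis `RootInfStmt A` holds for every `A ≥ 0`. -/
theorem rootInf (A : ℝ) (hA : 0 ≤ A) : RootInfStmt A := by
  classical
  intro η k hη
  obtain ⟨c, K, hc, hK, hev⟩ := count_rootInf (1 / 2) 0 η A k (by norm_num) hη hA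
  refine ⟨c, hc, K, ?_⟩
  filter_upwards [hev] with n hn T hT
  have h := hn T ?_
  · rwa [zero_add] at h
  · intro t ht'
    obtain ⟨g1, g2, g3, g4, g5, H, hH, hHk, hs⟩ := hT t ht'
    refine ⟨g1, g2, g3, g4, ?_, ∅, H, Finset.empty_subset _,
      (Finset.card_image_le).trans hHk, ?_, ?_⟩
    · linarith
    · simp
    · simpa using hs

end Pool.Agent.Lib.Pabc13
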